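import Pool.Agent.H69.Sp.Fm

/-!
# From formulas with named variables to sentences
-/

set_option autoImplicit false

namespace Pool.Agent.H69.Sp

open FirstOrder FirstOrder.Language

/-- the relation symbols that occur in a formula, with their arities -/
def Fm.sy : Fm → Finset (ℕ × ℕ)
  | .rel i xs => {(i, xs.length)}
  | .eq _ _ => ∅
  | .neg φ => φ.sy
  | .and φ ψ => φ.sy ∪ ψ.sy
  | .all _ φ => φ.sy

/-- the relational language with the symbols in `T` -/
def lang (T : Finset (ℕ × ℕ)) : FirstOrder.Language.{0, 0} where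
  Functions := fun _ => Empty
  Relations := fun n => {i : ℕ // (i, n) ∈ T}

instance (T : Finset (ℕ × ℕ)) : (lang T).IsRelational := fun _ =>
  inferInstanceAs (IsEmpty Empty)

theorem lang_finite (T : Finset (ℕ × ℕ)) : Finite (Σ n, (lang T).Relations n) := by
  refine Finite.of_injective
    (fun x : (Σ n, (lang T).Relations n) => (⟨(x.2.1, x.1), x.2.2⟩ : {p // p ∈ T})) ?_
  rintro ⟨n, i, hi⟩ ⟨m, j, hj⟩ h
  simp only [Subtype.mk.injEq, Prod.mk.injEq] at h
  obtain ⟨h1, h2⟩ := h
  subst h1 h2
  rfl

/-- the symbol `i` of arity `n` -/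
def mkRel (T : Finset (ℕ × ℕ)) (i n : ℕ) (h : (i, n) ∈ T) : (lang T).Relations n := ⟨i, h⟩

/-- translation into bounded formulas -/
def trB (T : Finset (ℕ × ℕ)) : Fm → (m : ℕ) → (ℕ → Fin m) → (lang T).BoundedFormula Empty m
  | .rel i xs, _, ρ =>
    if h : (i, xs.length) ∈ T then
      BoundedFormula.rel (mkRel T i xs.length h) (fun j => Term.var (Sum.inr (ρ (xs.get j))))
    else ⊥
  | .eq x y, _, ρ => BoundedFormula.equal (Term.var (Sum.inr (ρ x))) (Term.var (Sum.inr (ρ y)))
  | .neg φ, m, ρ => (trB T φ m ρ).not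
  | .and φ ψ, m, ρ => trB T φ m ρ ⊓ trB T ψ m ρ
  | .all x φ, m, ρ => (trB T φ (m + 1) (Function.update (fun y => (ρ y).castSucc) x (Fin.last m))).all

/-- the interpretation of the symbols given by a structure -/
def intB {T : Finset (ℕ × ℕ)} {M : Type} (S : (lang T).Structure M) (i : ℕ) (l : List M) : Prop :=
  ∃ h : (i, l.length) ∈ T, S.RelMap (mkRel T i l.length h) l.get

theorem trB_realize {T : Finset (ℕ × ℕ)} {M : Type} [S : (lang T).Structure M] (φ : Fm) :
    ∀ (m : ℕ) (ρ : ℕ → Fin m) (xs : Fin m → M), φ.sy ⊆ T →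
      ((trB T φ m ρ).Realize default xs ↔ Sat (fun _ => True) (intB S) φ (fun y => xs (ρ y))) := by
  induction φ with
  | rel i ys =>
    intro m ρ xs hT
    have h : (i, ys.length) ∈ T := hT (by simp [Fm.sy])
    unfold trB Sat intB
    rw [dif_pos h]
    have hlen : (ys.map (fun y => xs (ρ y))).length = ys.length := by simp
    change (S.RelMap (mkRel T i ys.length h) (fun j => xs (ρ (ys.get j)))) ↔ _
    constructor
    · intro hr
      refine ⟨by rw [hlen]; exact h, ?_⟩
      have key : ∀ (k : ℕ) (hk : k = ys.length) (h' : (i, k) ∈ T) (g : Fin k → M),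
          (∀ j, g j = xs (ρ (ys.get (Fin.cast hk j)))) →
          S.RelMap (mkRel T i k h') g := by
        intro k hk h' g hg
        subst hk
        convert hr using 2
        exact hg _
      refine key _ hlen _ _ ?_
      intro j
      simp
    · rintro ⟨h', hr⟩
      have key : ∀ (k : ℕ) (hk : ys.length = k) (h' : (i, k) ∈ T) (g : Fin k → M),
          (∀ j, g (Fin.cast hk j) = xs (ρ (ys.get j))) →
          S.RelMap (mkRel T i k h') g →
          S.RelMap (mkRel T i ys.length h) (fun j => xs (ρ (ys.get j))) := by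
        intro k hk h' g hg hr
        subst hk
        convert hr using 2
        exact (hg _).symm
      refine key _ hlen.symm h' _ ?_ hr
      intro j
      simp
  | eq x y =>
    intro m ρ xs _
    unfold trB Sat
    simp [BoundedFormula.Realize]
  | neg φ ih =>
    intro m ρ xs hT
    unfold trB Sat
    rw [BoundedFormula.realize_not, ih m ρ xs hT]
  | and φ ψ ih1 ih2 =>
    intro m ρ xs hT
    unfold trB Sat
    rw [BoundedFormula.realize_inf, ih1 m ρ xs (fun a ha => hT (by simp [Fm.sy, ha])),
      ih2 m ρ xs (fun a ha => hT (by simp [Fm.sy, ha]))]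
  | all x φ ih =>
    intro m ρ xs hT
    unfold trB Sat
    rw [BoundedFormula.realize_all]
    refine forall_congr' fun a => ?_
    rw [ih (m + 1) _ _ hT]
    have : (fun y => (Fin.snoc xs a : Fin (m + 1) → M)
        ((Function.update (fun y => (ρ y).castSucc) x (Fin.last m)) y)) =
        Function.update (fun y => xs (ρ y)) x a := by
      funext y
      by_cases hy : y = x
      · subst hy; simp
      · simp [Function.update_of_ne hy]
    rw [this]
    simp

/-- the interpretation as a structure -/
@[instance_reducible] def strB (T : Finset (ℕ × ℕ)) {M : Type} (I : ℕ → List M → Prop) : (lang T).Structure M where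
  funMap := fun f => isEmptyElim f
  RelMap := fun {n} R x => I (R : {i : ℕ // (i, n) ∈ T}).1 (List.ofFn x)

theorem sat_strB {T : Finset (ℕ × ℕ)} {M : Type} {D : M → Prop} (I : ℕ → List M → Prop) (φ : Fm) :
    ∀ (v : ℕ → M), φ.sy ⊆ T → (Sat D (intB (strB T I)) φ v ↔ Sat D I φ v) := by
  induction φ with
  | rel i ys =>
    intro v hT
    have h : (i, ys.length) ∈ T := hT (by simp [Fm.sy])
    unfold Sat intB strB
    simp [h, mkRel]
  | eq x y => intro v _; exact Iff.rfl
  | neg φ ih => intro v hT; exact not_congr (ih v hT)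
  | and φ ψ ih1 ih2 =>
    intro v hT
    exact and_congr (ih1 v (fun a ha => hT (by simp [Fm.sy, ha])))
      (ih2 v (fun a ha => hT (by simp [Fm.sy, ha])))
  | all x φ ih =>
    intro v hT
    exact forall₂_congr fun a _ => ih _ hT

/-- a set defined by a formula is a spectrum -/
theorem isSpectrum_of_defs {φ : Fm} {S : Set ℕ} (h : Defs φ S) : IsSpectrum S := by
  refine ⟨lang φ.sy, inferInstance, lang_finite _, (trB φ.sy φ 1 (fun _ => 0)).ex, ?_⟩
  ext n
  rw [h n]
  unfold spec
  refine and_congr_right fun hn => ?_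
  have hval : ∀ (v : ℕ → Fin n) (I : ℕ → List ℕ → Prop) (f : Fin n → Fin n),
      Function.Bijective f →
      (Sat (fun _ => True) (fun i l => I i (l.map (fun a => (f a).val))) φ v ↔
        Sat (· < n) I φ ((fun a => (f a).val) ∘ v)) := by
    intro v I f hf
    refine sat_transfer (fun a => (f a).val) ?_ ?_ ?_ ?_ ?_
    · intro a _; exact (f a).isLt
    · intro b hb
      obtain ⟨a, ha⟩ := hf.2 ⟨b, hb⟩
      exact ⟨a, trivial, by rw [ha]⟩
    · intro a b _ _ hab
      exact hf.1 (Fin.ext hab)
    · intro i l _; exact Iff.rfl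
    · intro _; trivial
  constructor
  · rintro ⟨I, hI⟩
    refine ⟨strB φ.sy (fun i l => I i (l.map (fun a => (id a : Fin n).val))), ?_⟩
    letI := strB φ.sy (fun i l => I i (l.map (fun a => (id a : Fin n).val)))
    rw [Sentence.Realize, Formula.Realize, BoundedFormula.realize_ex]
    refine ⟨⟨0, hn⟩, ?_⟩
    rw [trB_realize _ _ _ _ (Finset.Subset.refl _), sat_strB _ _ _ (Finset.Subset.refl _),
      hval _ _ id Function.bijective_id]
    refine (sat_congr ?_).1 hI
    intro x _
    simp [Fin.snoc]
  · rintro ⟨S', hS⟩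
    rw [Sentence.Realize, Formula.Realize, BoundedFormula.realize_ex] at hS
    obtain ⟨a, ha⟩ := hS
    rw [trB_realize _ _ _ _ (Finset.Subset.refl _)] at ha
    -- a permutation that moves `a` to `0`
    set f : Fin n → Fin n := ⇑(Equiv.swap a (⟨0, hn⟩ : Fin n)) with hf
    have hfb : Function.Bijective f := (Equiv.swap a ⟨0, hn⟩).bijective
    set J : ℕ → List ℕ → Prop := fun i l => ∃ l' : List (Fin n), l'.map (fun a => (f a).val) = l ∧
      intB S' i l' with hJ
    refine ⟨J, ?_⟩
    have h1 := hval (fun _ => a) J f hfb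
    have h2 : (fun i (l : List (Fin n)) => J i (l.map (fun a => (f a).val))) = intB S' := by
      funext i l
      apply propext
      rw [hJ]
      constructor
      · rintro ⟨l', hl, h3⟩
        have : l' = l := by
          refine List.map_injective_iff.2 ?_ hl
          intro x y hxy
          exact hfb.1 (Fin.ext hxy)
        rwa [← this]
      · intro h3
        exact ⟨l, rfl, h3⟩
    rw [h2] at h1
    have h3 : (fun y => (Fin.snoc default a : Fin 1 → Fin n) ((fun _ => (0 : Fin 1)) y)) =
        (fun _ : ℕ => a) := by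
      funext y
      simp [Fin.snoc]
    rw [h3] at ha
    have h4 := h1.1 ha
    refine (sat_congr ?_).1 h4
    intro x _
    simp [hf, Equiv.swap_apply_left]

end Pool.Agent.H69.Sp
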