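import Pool.Agent.H69.Sp.Fm

/-!
# From sentences to formulas with named variables
-/

set_option autoImplicit false

namespace Pool.Agent.H69.Sp

open FirstOrder FirstOrder.Language

variable {L : FirstOrder.Language.{0, 0}} [L.IsRelational]

/-- the index of the variable that is the term -/
def tv {m : ℕ} : L.Term (Empty ⊕ Fin m) → ℕ
  | .var (Sum.inl e) => isEmptyElim e
  | .var (Sum.inr i) => i.val
  | .func f _ => isEmptyElim f

theorem tv_lt {m : ℕ} (t : L.Term (Empty ⊕ Fin m)) : tv t < m := by
  match t with
  | .var (Sum.inl e) => exact isEmptyElim e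
  | .var (Sum.inr i) => exact i.isLt
  | .func f _ => exact isEmptyElim f

theorem tv_realize {m : ℕ} {M : Type} [L.Structure M] (t : L.Term (Empty ⊕ Fin m)) (xs : Fin m → M)
    (v : ℕ → M) (h : ∀ i : Fin m, v i.val = xs i) :
    t.realize (Sum.elim default xs) = v (tv t) := by
  match t with
  | .var (Sum.inl e) => exact isEmptyElim e
  | .var (Sum.inr i) => exact (h i).symm
  | .func f _ => exact isEmptyElim f

/-- translation of bounded formulas; `c` codes the relation symbols -/
def trA (c : (Σ n, L.Relations n) → ℕ) : (m : ℕ) → L.BoundedFormula Empty m → Fm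
  | _, .falsum => .neg (.eq 0 0)
  | _, .equal t s => .eq (tv t) (tv s)
  | _, .rel R ts => .rel (c ⟨_, R⟩) (List.ofFn fun j => tv (ts j))
  | m, .imp f g => .neg (.and (trA c m f) (.neg (trA c m g)))
  | m, .all f => .all m (trA c (m + 1) f)

/-- the interpretation given by a structure -/
def intA (c : (Σ n, L.Relations n) → ℕ) {M : Type} (S : L.Structure M) (i : ℕ) (l : List M) :
    Prop :=
  ∃ R : L.Relations l.length, c ⟨_, R⟩ = i ∧ S.RelMap R l.get

theorem trA_realize {c : (Σ n, L.Relations n) → ℕ} (hc : Function.Injective c) {M : Type}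
    [S : L.Structure M] : ∀ (m : ℕ) (f : L.BoundedFormula Empty m) (xs : Fin m → M) (v : ℕ → M),
      (∀ i : Fin m, v i.val = xs i) →
      (f.Realize default xs ↔ Sat (fun _ => True) (intA c S) (trA c m f) v) := by
  intro m f
  induction f with
  | falsum =>
    intro xs v h
    unfold trA Sat Sat
    simp [BoundedFormula.Realize]
  | equal t s =>
    intro xs v h
    unfold trA Sat
    rw [← tv_realize t xs v h, ← tv_realize s xs v h]
    exact Iff.rfl
  | @rel n l R ts =>
    intro xs v h
    unfold trA Sat intA
    change (S.RelMap R fun j => (ts j).realize (Sum.elim default xs)) ↔ _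
    have h1 : (fun j => (ts j).realize (Sum.elim default xs)) = fun j => v (tv (ts j)) := by
      funext j
      exact tv_realize _ _ _ h
    rw [h1]
    have hlen : ((List.ofFn fun j => tv (ts j)).map v).length = l := by simp
    have key : ∀ (k : ℕ) (hk : k = l) (g : Fin k → M), (∀ j, g j = v (tv (ts (Fin.cast hk j)))) →
        ((S.RelMap R fun j => v (tv (ts j))) ↔
          ∃ R' : L.Relations k, c ⟨_, R'⟩ = c ⟨_, R⟩ ∧ S.RelMap R' g) := by
      intro k hk g hg
      subst hk
      have hg' : g = fun j => v (tv (ts j)) := by funext j; exact hg j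
      constructor
      · intro hr
        exact ⟨R, rfl, by rwa [hg']⟩
      · rintro ⟨R', h2, h3⟩
        have h4 := hc h2
        simp only [Sigma.mk.injEq, heq_eq_eq, true_and] at h4
        rw [h4, hg'] at h3
        exact h3
    refine key _ hlen _ ?_
    intro j
    simp
    rfl
  | imp f g ih1 ih2 =>
    intro xs v h
    unfold trA
    rw [BoundedFormula.realize_imp, ih1 xs v h, ih2 xs v h, sat_neg, sat_and, sat_neg]
    tauto
  | @all n f ih =>
    intro xs v h
    unfold trA Sat
    rw [BoundedFormula.realize_all]
    refine forall_congr' fun a => ?_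
    rw [ih (Fin.snoc xs a) (Function.update v n a) ?_]
    · simp
    · intro i
      refine Fin.lastCases ?_ (fun j => ?_) i
      · simp
      · rw [Function.update_of_ne (by simpa using j.isLt.ne)]
        simpa using h j

/-- only the variables below `m` matter -/
theorem trA_congr {c : (Σ n, L.Relations n) → ℕ} {M : Type} {D : M → Prop}
    {I : ℕ → List M → Prop} : ∀ (m : ℕ) (f : L.BoundedFormula Empty m) (v w : ℕ → M),
      (∀ i < m, v i = w i) → (Sat D I (trA c m f) v ↔ Sat D I (trA c m f) w) := by
  intro m f
  induction f with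
  | falsum =>
    intro v w h
    unfold trA Sat Sat
    simp
  | equal t s =>
    intro v w h
    unfold trA Sat
    rw [h _ (tv_lt t), h _ (tv_lt s)]
  | @rel n l R ts =>
    intro v w h
    unfold trA Sat
    have : (List.ofFn fun j => tv (ts j)).map v = (List.ofFn fun j => tv (ts j)).map w := by
      refine List.map_congr_left fun x hx => ?_
      obtain ⟨j, rfl⟩ := List.mem_ofFn.1 hx
      exact h _ (tv_lt _)
    rw [this]
  | imp f g ih1 ih2 =>
    intro v w h
    unfold trA
    rw [sat_neg, sat_and, sat_neg, sat_neg, sat_and, sat_neg, ih1 v w h, ih2 v w h]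
  | @all n f ih =>
    intro v w h
    unfold trA Sat
    refine forall₂_congr fun a _ => ih _ _ ?_
    intro i hi
    by_cases hin : i = n
    · subst hin; simp
    · rw [Function.update_of_ne hin, Function.update_of_ne hin]
      exact h i (by omega)

/-- the interpretation as a structure -/
@[instance_reducible] def strA (c : (Σ n, L.Relations n) → ℕ) {M : Type} (I : ℕ → List M → Prop) :
    L.Structure M where
  funMap := fun f => isEmptyElim f
  RelMap := fun {k} R x => I (c ⟨k, R⟩) (List.ofFn x)

theorem sat_strA {c : (Σ n, L.Relations n) → ℕ} {M : Type}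
    {D : M → Prop} {I : ℕ → List M → Prop} : ∀ (m : ℕ) (f : L.BoundedFormula Empty m) (v : ℕ → M),
      Sat D (intA c (strA c I)) (trA c m f) v ↔ Sat D I (trA c m f) v := by
  intro m f
  induction f with
  | falsum => intro v; exact Iff.rfl
  | equal t s => intro v; exact Iff.rfl
  | @rel n l R ts =>
    intro v
    unfold trA
    rw [sat_rel, sat_rel]
    unfold intA strA
    have hlen : ((List.ofFn fun j => tv (ts j)).map v).length = l := by simp
    have key : ∀ (l' : List M) (hk : l'.length = l),
        (∃ R' : L.Relations l'.length, c ⟨_, R'⟩ = c ⟨_, R⟩ ∧ I (c ⟨_, R'⟩) (List.ofFn l'.get)) ↔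
          I (c ⟨_, R⟩) l' := by
      intro l' hk
      subst hk
      constructor
      · rintro ⟨R', h2, h3⟩
        rw [h2, List.ofFn_get] at h3
        exact h3
      · intro h3
        exact ⟨R, rfl, by rw [List.ofFn_get]; exact h3⟩
    exact key _ hlen
  | imp f g ih1 ih2 =>
    intro v
    unfold trA
    rw [sat_neg, sat_and, sat_neg, sat_neg, sat_and, sat_neg, ih1 v, ih2 v]
  | @all n f ih =>
    intro v
    unfold trA
    rw [sat_all, sat_all]
    exact forall₂_congr fun a _ => ih _

/-- every spectrum is defined by a closed formula -/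
theorem IsSpectrum.exists_fm {S : Set ℕ} (h : IsSpectrum S) : ∃ φ : Fm, Closed φ ∧ Defs φ S := by
  obtain ⟨L, hL, hfin, ψ, rfl⟩ := h
  have : Countable (Σ n, L.Relations n) := inferInstance
  obtain ⟨c, hc⟩ := Countable.exists_injective_nat (Σ n, L.Relations n)
  refine ⟨trA c 0 ψ, ?_, ?_⟩
  · intro M D I v w
    exact trA_congr 0 ψ v w (by omega)
  · intro n
    unfold spec
    refine and_congr_right fun hn => ?_
    constructor
    · rintro ⟨S', hS⟩
      rw [Sentence.Realize, Formula.Realize,
        show (default : Fin 0 → Fin n) = Fin.elim0 from Subsingleton.elim _ _] at hS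
      have h1 := (trA_realize hc 0 ψ Fin.elim0 (fun _ => (⟨0, hn⟩ : Fin n)) (fun i => i.elim0)).1 hS
      refine ⟨fun i l => ∃ l' : List (Fin n), l'.map Fin.val = l ∧ intA c S' i l', ?_⟩
      refine (sat_transfer (D' := (· < n)) Fin.val (fun a _ => a.isLt)
        (fun b hb => ⟨⟨b, hb⟩, trivial, rfl⟩) (fun a b _ _ hab => Fin.ext hab) ?_
        (fun _ => trivial)).1 h1
      intro i l _
      constructor
      · intro h3; exact ⟨l, rfl, h3⟩
      · rintro ⟨l', hl, h3⟩
        rwa [List.map_injective_iff.2 Fin.val_injective hl] at h3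
    · rintro ⟨I, hI⟩
      refine ⟨strA c (fun i (l : List (Fin n)) => I i (l.map Fin.val)), ?_⟩
      let S' : L.Structure (Fin n) := strA c (fun i (l : List (Fin n)) => I i (l.map Fin.val))
      rw [Sentence.Realize, Formula.Realize,
        show (default : Fin 0 → Fin n) = Fin.elim0 from Subsingleton.elim _ _]
      refine (trA_realize hc 0 ψ Fin.elim0 (fun _ => (⟨0, hn⟩ : Fin n)) (fun i => i.elim0)).2 ?_
      rw [sat_strA]
      refine (sat_transfer (D' := (· < n)) Fin.val (fun a _ => a.isLt)
        (fun b hb => ⟨⟨b, hb⟩, trivial, rfl⟩) (fun a b _ _ hab => Fin.ext hab) ?_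
        (fun _ => trivial)).2 hI
      intro i l _
      exact Iff.rfl

end Pool.Agent.H69.Sp
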