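import Pool.Agent.H69.Sp.Cop

/-!
# The pumping criterion
-/

set_option autoImplicit false

namespace Pool.Agent.H69.Sp

open FirstOrder FirstOrder.Language FirstOrder.Language.Structure

attribute [local instance] sumStr copStr

/-- ultimately periodic -/
def UltPer (S : Set ℕ) : Prop := ∃ N p, 0 < p ∧ ∀ n ≥ N, (n ∈ S ↔ n + p ∈ S)

theorem ultPer_of_shift (S : Set ℕ) (N G M : ℕ) (hG : 0 < G)
    (h : ∀ n ∈ S, N ≤ n → ∀ j, M ≤ j * G → n + j * G ∈ S) : UltPer S := by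
  classical
  -- thresholds for the residue classes
  have h1 : ∀ c : ℕ, ∃ T : ℕ, (∃ n ∈ S, N ≤ n ∧ n % G = c) →
      ∀ m ≥ T, m % G = c → m ∈ S := by
    intro c
    by_cases hc : ∃ n ∈ S, N ≤ n ∧ n % G = c
    · obtain ⟨n, hn, hN, hnc⟩ := hc
      refine ⟨n + M, fun _ m hm hmc => ?_⟩
      have h2 : G ∣ m - n := (Nat.modEq_iff_dvd' (by omega)).1 (by
        unfold Nat.ModEq; rw [hnc, hmc])
      obtain ⟨j, hj⟩ := h2
      have h3 : m = n + j * G := by rw [mul_comm j G]; omega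
      rw [h3]
      exact h n hn hN j (by rw [mul_comm j G, ← hj]; omega)
    · exact ⟨0, fun h' => absurd h' hc⟩
  choose T hT using h1
  refine ⟨max N ((Finset.range G).sup T), G, hG, fun n hn => ?_⟩
  have hc : n % G ∈ Finset.range G := Finset.mem_range.2 (Nat.mod_lt _ hG)
  have hTn : T (n % G) ≤ n := le_trans (Finset.le_sup hc) (le_trans (le_max_right _ _) hn)
  have hN : N ≤ n := le_trans (le_max_left _ _) hn
  constructor
  · intro hS
    exact hT (n % G) ⟨n, hS, hN, rfl⟩ (n + G) (by omega) (by simp)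
  · intro hS
    exact hT (n % G) ⟨n + G, hS, by omega, by simp⟩ n hTn rfl

variable {L : FirstOrder.Language.{0, 0}} [L.IsRelational]

/-- sizes of the structures of a type -/
def sz (r : ℕ) (τ : Ty L r 0) : Set ℕ := {b | ∃ _ : L.Structure (Fin b), t0 L r (Fin b) = τ}

theorem mem_sz (r : ℕ) (D : Type) [L.Structure D] [Finite D] : Nat.card D ∈ sz r (t0 L r D) :=
  exists_fin r D rfl

theorem sz_add (r k s c : ℕ) {C : Type} [L.Structure C]
    (hs : s ∈ sz r (t0 L r (Fin k × C))) (hc : c ∈ sz r (t0 L r C)) :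
    s + c ∈ sz r (t0 L r (Fin (k + 1) × C)) := by
  obtain ⟨i1, h1⟩ := hs
  obtain ⟨i2, h2⟩ := hc
  rw [← t0_add_one r k h1 h2]
  have := mem_sz r (Fin s ⊕ Fin c) (L := L)
  simpa using this

theorem sz_closure (r : ℕ) {C : Type} [L.Structure C] {m : ℕ}
    (hm : m ∈ AddSubmonoid.closure (sz r (t0 L r C))) : ∃ k, ∀ j s,
      s ∈ sz r (t0 L r (Fin j × C)) → s + m ∈ sz r (t0 L r (Fin (j + k) × C)) := by
  induction hm using AddSubmonoid.closure_induction with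
  | mem c hc => exact ⟨1, fun j s hs => sz_add r j s c hs hc⟩
  | zero => exact ⟨0, fun j s hs => hs⟩
  | add a b _ _ iha ihb =>
    obtain ⟨k1, h1⟩ := iha
    obtain ⟨k2, h2⟩ := ihb
    refine ⟨k1 + k2, fun j s hs => ?_⟩
    have := h2 (j + k1) (s + a) (h1 j s hs)
    rwa [add_assoc, add_assoc] at this

/-- all large multiples of the gcd are sizes of large sums -/
theorem exists_large (r : ℕ) {C : Type} [L.Structure C] [Finite C] [Nonempty C] :
    ∃ g M : ℕ, 0 < g ∧ (∀ c ∈ sz r (t0 L r C), g ∣ c) ∧ ∀ m ≥ M, g ∣ m →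
      ∃ k, r < k ∧ m ∈ sz r (t0 L r (Fin k × C)) := by
  set X := sz r (t0 L r C) with hX
  set x := Nat.card C with hx
  have hx0 : 0 < x := Nat.card_pos
  have hxX : x ∈ X := mem_sz r C
  obtain ⟨n, hn⟩ := Nat.exists_mem_closure_of_ge X
  refine ⟨Nat.setGcd X, n + (r + 1) * x, ?_, fun c hc => Nat.setGcd_dvd_of_mem hc, ?_⟩
  · refine Nat.pos_of_ne_zero fun h0 => ?_
    have := Nat.setGcd_eq_zero_iff.1 h0 hxX
    simp only [Set.mem_singleton_iff] at this
    omega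
  · intro m hm hg
    have h1 : Nat.setGcd X ∣ m - (r + 1) * x :=
      Nat.dvd_sub hg (Dvd.dvd.mul_left (Nat.setGcd_dvd_of_mem hxX) _)
    obtain ⟨k, hk⟩ := sz_closure r (hn (m - (r + 1) * x) (by omega) h1)
    have h2 : ∀ j, j * x ∈ sz r (t0 L r (Fin j × C)) := by
      intro j
      have := mem_sz r (Fin j × C) (L := L)
      rwa [Nat.card_prod, Nat.card_fin] at this
    refine ⟨r + 1 + k, by omega, ?_⟩
    have h3 := hk (r + 1) _ (h2 (r + 1))
    have h4 : (r + 1) * x + (m - (r + 1) * x) = m := by omega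
    rwa [h4] at h3

/-- `B` and `C` can be pumped -/
def Pump (φ : L.Sentence) (B C : Type) [L.Structure B] [L.Structure C] : Prop :=
  {k : ℕ | (B ⊕ (Fin k × C)) ⊨ φ}.Infinite

/-- good pairs of types -/
def Good (φ : L.Sentence) (r : ℕ) (p : Ty L r 0 × Ty L r 0) : Prop :=
  ∃ (B C : Type) (_ : L.Structure B) (_ : L.Structure C), Finite C ∧ Nonempty C ∧
    t0 L r B = p.1 ∧ t0 L r C = p.2 ∧ Pump φ B C

theorem good_spec {φ : L.Sentence} {r : ℕ}
    (hr : ∀ (M N : Type) [L.Structure M] [L.Structure N], t0 L r M = t0 L r N →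
      (M ⊨ φ ↔ N ⊨ φ)) {p : Ty L r 0 × Ty L r 0} (hp : Good φ r p) :
    ∃ g M : ℕ, 0 < g ∧ (∀ c ∈ sz r p.2, g ∣ c) ∧ ∀ b ∈ sz r p.1, ∀ m ≥ M, g ∣ m → 0 < b + m →
      b + m ∈ spec L φ := by
  obtain ⟨B, C, iB, iC, hf, hn, h1, h2, hpump⟩ := hp
  obtain ⟨g, M, hg, h3, h4⟩ := exists_large r (L := L) (C := C)
  refine ⟨g, M, hg, by rw [← h2]; exact h3, ?_⟩
  rw [← h1]
  intro b hb m hm hgm hpos
  obtain ⟨k, hk, hmk⟩ := h4 m hm hgm
  obtain ⟨iB', hB'⟩ := hb
  obtain ⟨iD, hD⟩ := hmk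
  obtain ⟨K, hK, hrK⟩ := hpump.exists_gt r
  have h5 : t0 L r (Fin k × C) = t0 L r (Fin K × C) :=
    cop_stable C r (Fin k) (Fin K) (by simpa using hk) (by simpa using hrK)
  have h6 : t0 L r (Fin b ⊕ Fin m) = t0 L r (B ⊕ (Fin K × C)) := t0_sum r hB' (hD.trans h5)
  have h7 : (Fin b ⊕ Fin m) ⊨ φ := (hr _ _ h6).2 hK
  obtain ⟨iE, hE⟩ := exists_fin r (Fin b ⊕ Fin m) (L := L) (s := b + m) (by simp)
  exact ⟨hpos, iE, (hr _ _ hE).2 h7⟩

/-- the pumping criterion, numerical part -/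
theorem pump_ultPer [Finite (Σ n, L.Relations n)] (φ : L.Sentence) (N : ℕ)
    (h : ∀ (A : Type) [L.Structure A] [Finite A], N ≤ Nat.card A → A ⊨ φ →
      ∃ (B C : Type) (_ : L.Structure B) (_ : L.Structure C), Finite B ∧ Finite C ∧ Nonempty C ∧
        Nonempty (A ≃[L] (B ⊕ C)) ∧ Pump φ B C) : UltPer (spec L φ) := by
  classical
  obtain ⟨r, hr0⟩ := exists_rank φ
  have hr : ∀ (M N : Type) [L.Structure M] [L.Structure N], t0 L r M = t0 L r N →
      (M ⊨ φ ↔ N ⊨ φ) := by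
    intro M N _ _ hMN
    have h1 := hr0 r le_rfl M N Fin.elim0 Fin.elim0 hMN
    unfold Sentence.Realize Formula.Realize
    rw [show (default : Fin 0 → M) = Fin.elim0 from funext fun i => i.elim0,
      show (default : Fin 0 → N) = Fin.elim0 from funext fun i => i.elim0]
    exact h1
  have hch : ∀ p : Ty L r 0 × Ty L r 0, ∃ gM : ℕ × ℕ, 0 < gM.1 ∧ (Good φ r p →
      (∀ c ∈ sz r p.2, gM.1 ∣ c) ∧ ∀ b ∈ sz r p.1, ∀ m ≥ gM.2, gM.1 ∣ m → 0 < b + m →
      b + m ∈ spec L φ) := by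
    intro p
    by_cases hp : Good φ r p
    · obtain ⟨g, M, h1, h2, h3⟩ := good_spec hr hp
      exact ⟨(g, M), h1, fun _ => ⟨h2, h3⟩⟩
    · exact ⟨(1, 0), Nat.one_pos, fun h' => absurd h' hp⟩
  choose gM hpos hgM using hch
  have := Fintype.ofFinite (Ty L r 0 × Ty L r 0)
  set G := ∏ p, (gM p).1 with hG
  set M := Finset.univ.sup fun p => (gM p).2 with hM
  refine ultPer_of_shift _ (max N 1) G M (Finset.prod_pos fun p _ => hpos p) ?_
  intro n hn hN j hj
  obtain ⟨hn0, iA, hA⟩ := hn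
  obtain ⟨B, C, iB, iC, hfB, hfC, hnC, ⟨e⟩, hp⟩ := h (Fin n) (by
    rw [Nat.card_fin]; exact le_trans (le_max_left _ _) hN) hA
  set p : Ty L r 0 × Ty L r 0 := (t0 L r B, t0 L r C) with hpdef
  have hgood : Good φ r p := ⟨B, C, iB, iC, hfC, hnC, rfl, rfl, hp⟩
  obtain ⟨h1, h2⟩ := hgM p hgood
  have hcard : n = Nat.card B + Nat.card C := by
    have h3 := Nat.card_congr e.toEquiv
    rw [Nat.card_sum, Nat.card_fin] at h3
    exact h3
  have hb : Nat.card B ∈ sz r p.1 := mem_sz r B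
  have hc : Nat.card C ∈ sz r p.2 := mem_sz r C
  have hdG : (gM p).1 ∣ G := Finset.dvd_prod_of_mem _ (Finset.mem_univ p)
  have hMp : (gM p).2 ≤ M := Finset.le_sup (f := fun p => (gM p).2) (Finset.mem_univ p)
  have h5 := h2 (Nat.card B) hb (Nat.card C + j * G) (by omega)
    (Nat.dvd_add (h1 _ hc) (Dvd.dvd.mul_left hdG j)) (by omega)
  rw [← add_assoc, ← hcard] at h5
  exact h5

end Pool.Agent.H69.Sp
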