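import Pool.Agent.H69.Sp.Elim
import Pool.Agent.H69.Sp.TrB
import Pool.Agent.H69.Sp.Pump

/-!
# Ultimately periodic sets are spectra
-/

set_option autoImplicit false

namespace Pool.Agent.H69.Sp

theorem FD.exFin {P : ℕ → Pd} (n : ℕ) (h : ∀ c, FD (P c)) :
    FD (fun N E v => ∃ c, c < n ∧ P c N E v) := by
  induction n with
  | zero => exact FD.ff.congr fun N E v _ => by simp
  | succ n ih =>
    refine (ih.or (h n)).congr fun N E v _ => ?_
    constructor
    · rintro (⟨c, h1, h2⟩ | h2)
      · exact ⟨c, by omega, h2⟩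
      · exact ⟨n, by omega, h2⟩
    · rintro ⟨c, h1, h2⟩
      by_cases hc : c = n
      · subst hc; exact Or.inr h2
      · exact Or.inl ⟨c, by omega, h2⟩

theorem FD.succ (x y : ℕ) : FD (fun _ _ v => v y = v x + 1) := by
  have hx : x ≠ x + y + 1 := by omega
  have hy : y ≠ x + y + 1 := by omega
  refine ((FD.lt x y).and (FD.all (x + y + 1)
    ((FD.lt x (x + y + 1)).and (FD.lt (x + y + 1) y)).not)).congr fun N E v hv => ?_
  simp only [Function.update_self, ne_eq, hx, hy, not_false_eq_true, Function.update_of_ne]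
  constructor
  · rintro ⟨h1, h2⟩
    by_contra h3
    exact h2 (v x + 1) (by have := hv y; omega) (by omega)
  · intro h1
    exact ⟨by omega, fun a _ => by omega⟩

theorem FD.num (c : ℕ) : ∀ x : ℕ, FD (fun _ _ v => v x = c) := by
  induction c with
  | zero =>
    intro x
    have hx : x ≠ x + 1 := by omega
    refine (FD.all (x + 1) (FD.lt (x + 1) x).not).congr fun N E v hv => ?_
    simp only [Function.update_self, ne_eq, hx, not_false_eq_true, Function.update_of_ne]
    constructor
    · intro h1
      by_contra h3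
      exact h1 0 (by have := hv x; omega) (by omega)
    · intro h1 a _; omega
  | succ c ih =>
    intro x
    have hx : x ≠ x + 1 := by omega
    refine (FD.ex (x + 1) ((ih (x + 1)).and (FD.succ (x + 1) x))).congr
      fun N E v hv => ?_
    simp only [Function.update_self, ne_eq, hx, not_false_eq_true, Function.update_of_ne]
    constructor
    · rintro ⟨a, _, rfl, h2⟩; exact h2
    · intro h1
      exact ⟨c, by have := hv x; omega, rfl, h1⟩

theorem UltPer.fd {T : Set ℕ} (h : UltPer T) (x : ℕ) : FD (fun _ _ v => v x ∈ T) := by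
  obtain ⟨n, p, hp, h⟩ := h
  have h1 : ∀ c, FD (fun _ _ v => v x = c ∧ c ∈ T) := fun c => (FD.num c x).and (FD.const _)
  have h2 : ∀ c, FD (fun N E v => ∃ k, k < N ∧ ∃ q, q < N ∧ ∃ t, t < N ∧ ∃ c', c' < N ∧
      q = p ∧ c' = c ∧ k * q = t ∧ c' + t = v x ∧ c ∈ T ∧ n ≤ c) := by
    intro c
    have e1 : x ≠ x + 1 := by omega
    have e2 : x ≠ x + 2 := by omega
    have e3 : x ≠ x + 3 := by omega
    have e4 : x ≠ x + 4 := by omega
    have e5 : x + 1 ≠ x + 2 := by omega
    have e6 : x + 1 ≠ x + 3 := by omega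
    have e7 : x + 1 ≠ x + 4 := by omega
    have e8 : x + 2 ≠ x + 3 := by omega
    have e9 : x + 2 ≠ x + 4 := by omega
    have e10 : x + 3 ≠ x + 4 := by omega
    refine (FD.ex (x + 1) (FD.ex (x + 2) (FD.ex (x + 3) (FD.ex (x + 4)
      ((FD.num p (x + 2)).and ((FD.num c (x + 4)).and ((FD.mul (x + 1) (x + 2) (x + 3)).and
      ((FD.add (x + 4) (x + 3) x).and (FD.const (c ∈ T ∧ n ≤ c)))))))))).congr fun N E v hv => ?_
    simp only [Function.update_self, ne_eq, e1, e2, e3, e4, e5, e6, e7, e8, e9, e10,
      not_false_eq_true, Function.update_of_ne]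
  refine ((FD.exFin (n + p) h1).or (FD.exFin (n + p) h2)).congr fun N E v hv => ?_
  have hper : ∀ k c, n ≤ c → (c + k * p ∈ T ↔ c ∈ T) := by
    intro k c hc
    induction k with
    | zero => simp
    | succ k ih =>
      rw [← ih, show c + (k + 1) * p = c + k * p + p by ring]
      exact (h _ (by omega)).symm
  constructor
  · rintro (⟨c, _, h3, h4⟩ | ⟨c, _, k, _, q, _, t, _, c', _, rfl, rfl, h6, h7, h8, h9⟩)
    · rw [h3]; exact h4
    · rw [← h7, ← h6]
      exact (hper _ _ h9).2 h8
  · intro h3
    by_cases h4 : v x < n + p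
    · exact Or.inl ⟨v x, h4, rfl, h3⟩
    · have h5 := Nat.div_add_mod (v x - n) p
      have h6 := Nat.mod_lt (v x - n) hp
      have hN := hv x
      set k := (v x - n) / p with hk
      set c := n + (v x - n) % p with hc
      have h7 : c + k * p = v x := by rw [mul_comm]; omega
      have h8 : 0 < k := by
        rw [hk]
        exact Nat.div_pos (by omega) hp
      have h9 : p ≤ k * p := Nat.le_mul_of_pos_left p h8
      have h10 : k ≤ k * p := Nat.le_mul_of_pos_right k hp
      have h11 : c ∈ T := by rw [← hper k c (by omega), h7]; exact h3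
      exact Or.inr ⟨c, by omega, k, by omega, p, by omega, k * p, by omega, c, by omega, rfl, rfl,
        rfl, by omega, h11, by omega⟩

/-- ultimately periodic sets of positive integers are spectra -/
theorem UltPer.isSpectrum {T : Set ℕ} (h : UltPer T) : IsSpectrum {n | 0 < n ∧ n ∈ T} := by
  have h' : UltPer {m | m + 1 ∈ T} := by
    obtain ⟨n, p, hp, h⟩ := h
    refine ⟨n, p, hp, fun m hm => ?_⟩
    have := h (m + 1) (by omega)
    rw [show m + 1 + p = m + p + 1 by ring] at this
    exact this
  have h1 : FD (fun N _ _ => N ∈ T) := by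
    refine (FD.ex 0 ((FD.all 1 (FD.le 1 0)).and (h'.fd 0))).congr fun N E v hv => ?_
    simp only [Function.update_self, ne_eq, zero_ne_one, not_false_eq_true, Function.update_of_ne]
    have hN := hv 0
    constructor
    · rintro ⟨a, ha, h2, h3⟩
      have h4 := h2 (N - 1) (by omega)
      have h5 : a + 1 = N := by omega
      change a + 1 ∈ T at h3
      rwa [h5] at h3
    · intro h2
      refine ⟨N - 1, by omega, fun a _ => by omega, ?_⟩
      change N - 1 + 1 ∈ T
      rwa [Nat.sub_add_cancel (by omega)]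
  obtain ⟨φ, hφ⟩ := h1.ed.defs
  have h2 : {N | 0 < N ∧ ∃ _ : ℕ → List ℕ → Prop, N ∈ T} = {n | 0 < n ∧ n ∈ T} := by
    ext n
    exact and_congr_right fun _ => ⟨fun ⟨_, h3⟩ => h3, fun h3 => ⟨fun _ _ => False, h3⟩⟩
  rw [h2] at hφ
  exact isSpectrum_of_defs hφ

end Pool.Agent.H69.Sp
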