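import Mathlib

/-!
# Spectra of first-order sentences
-/

set_option autoImplicit false

namespace Pool.Agent.H69.Sp

open FirstOrder FirstOrder.Language

/-- The spectrum of a sentence: the sizes of its finite (nonempty) models. -/
def spec (L : FirstOrder.Language.{0, 0}) (φ : L.Sentence) : Set ℕ :=
  {n | 0 < n ∧ ∃ _ : L.Structure (Fin n), Fin n ⊨ φ}

/-- `S` is a spectrum: the spectrum of a sentence over a finite relational vocabulary. -/
def IsSpectrum (S : Set ℕ) : Prop :=
  ∃ (L : FirstOrder.Language.{0, 0}) (_ : L.IsRelational) (_ : Finite (Σ n, L.Relations n))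
    (φ : L.Sentence), S = spec L φ

/-- the complement of a set of positive integers -/
def posCompl (S : Set ℕ) : Set ℕ := {n | 0 < n ∧ n ∉ S}

/-- The disjoint union of two structures. -/
@[instance_reducible] def sumStr (L : FirstOrder.Language.{0, 0}) [L.IsRelational] (A B : Type) [L.Structure A] [L.Structure B] :
    L.Structure (A ⊕ B) where
  funMap := fun f => isEmptyElim f
  RelMap := fun R x => (∃ a, x = Sum.inl ∘ a ∧ Structure.RelMap R a) ∨
    (∃ b, x = Sum.inr ∘ b ∧ Structure.RelMap R b)

/-- The disjoint union of copies of `A`, indexed by `I`. -/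
@[instance_reducible] def copStr (L : FirstOrder.Language.{0, 0}) [L.IsRelational] (I A : Type) [L.Structure A] :
    L.Structure (I × A) where
  funMap := fun f => isEmptyElim f
  RelMap := fun R x => ∃ i a, x = (fun j => (i, a j)) ∧ Structure.RelMap R a

/-- `A` is isomorphic to the disjoint union of `B` and `C`. -/
def IsSum (L : FirstOrder.Language.{0, 0}) [L.IsRelational] (A B C : Type) [L.Structure A]
    [L.Structure B] [L.Structure C] : Prop :=
  let _ := sumStr L B C
  Nonempty (A ≃[L] (B ⊕ C))

/-- The disjoint union of `B` and of `k` copies of `C` is a model of `φ`. -/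
def CopiesModel (L : FirstOrder.Language.{0, 0}) [L.IsRelational] (φ : L.Sentence) (B C : Type)
    [L.Structure B] [L.Structure C] (k : ℕ) : Prop :=
  let _ := copStr L (Fin k) C
  let _ := sumStr L B (Fin k × C)
  (B ⊕ (Fin k × C)) ⊨ φ

end Pool.Agent.H69.Sp
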