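import Pool.Agent.H69.Sp.Types

/-!
# Types of copowers
-/

set_option autoImplicit false

namespace Pool.Agent.H69.Sp

open FirstOrder FirstOrder.Language FirstOrder.Language.Structure

attribute [local instance] sumStr copStr

variable {L : FirstOrder.Language.{0, 0}} [L.IsRelational]

/-- the type of a structure -/
def t0 (L : FirstOrder.Language.{0, 0}) [L.IsRelational] (r : ℕ) (M : Type) [L.Structure M] :
    Ty L r 0 := tp r (Fin.elim0 : Fin 0 → M)

theorem t0_eq (r : ℕ) {M : Type} [L.Structure M] (v : Fin 0 → M) :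
    (tp r v : Ty L r 0) = t0 L r M := by
  unfold t0
  congr 1
  funext i
  exact i.elim0

theorem t0_sum (r : ℕ) {A A' B B' : Type} [L.Structure A] [L.Structure A'] [L.Structure B]
    [L.Structure B'] (h1 : t0 L r A = t0 L r A') (h2 : t0 L r B = t0 L r B') :
    t0 L r (A ⊕ B) = t0 L r (A' ⊕ B') := by
  rw [← t0_eq r (mix (Fin.elim0 : Fin 0 → Fin 0 ⊕ Fin 0) (Fin.elim0 : Fin 0 → A)
    (Fin.elim0 : Fin 0 → B)), ← t0_eq r (mix (Fin.elim0 : Fin 0 → Fin 0 ⊕ Fin 0)
    (Fin.elim0 : Fin 0 → A') (Fin.elim0 : Fin 0 → B'))]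
  exact tp_mix r _ h1 h2

theorem t0_equiv (r : ℕ) {M N : Type} [L.Structure M] [L.Structure N] (e : M ≃ N)
    (he : ∀ {n : ℕ} (R : L.Relations n) (x : Fin n → M), RelMap R (e ∘ x) ↔ RelMap R x) :
    t0 L r M = t0 L r N := by
  rw [← t0_eq r (e ∘ (Fin.elim0 : Fin 0 → M))]
  exact tp_equiv e he r _

theorem cop_reindex {I J A : Type} [L.Structure A] (σ : I ≃ J) {n : ℕ} (R : L.Relations n)
    (x : Fin n → I × A) :
    RelMap R (Equiv.prodCongr σ (Equiv.refl A) ∘ x) ↔ RelMap R x := by
  rw [cop_relMap, cop_relMap]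
  constructor
  · rintro ⟨j, a, h, hR⟩
    refine ⟨σ.symm j, a, ?_, hR⟩
    funext k
    have := congrFun h k
    simp only [Function.comp_apply, Equiv.prodCongr_apply, Prod.map_apply', Equiv.refl_apply,
      Prod.mk.injEq] at this
    rw [Prod.ext_iff]
    simp only
    rw [← this.1, Equiv.symm_apply_apply]
    exact ⟨rfl, this.2⟩
  · rintro ⟨i, a, rfl, hR⟩
    exact ⟨σ i, a, rfl, hR⟩

/-- split off one copy -/
def optE (J A : Type) : Option J × A ≃ (J × A) ⊕ A where
  toFun x := match x.1 with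
    | some j => Sum.inl (j, x.2)
    | none => Sum.inr x.2
  invFun y := match y with
    | Sum.inl (j, a) => (some j, a)
    | Sum.inr a => (none, a)
  left_inv := by rintro ⟨_ | j, a⟩ <;> rfl
  right_inv := by rintro (⟨j, a⟩ | a) <;> rfl

theorem opt_rel {J A : Type} [L.Structure A] {n : ℕ} (R : L.Relations n)
    (x : Fin n → Option J × A) : RelMap R (optE J A ∘ x) ↔ RelMap R x := by
  rw [sum_relMap, cop_relMap]
  constructor
  · rintro (⟨a, ha, hR⟩ | ⟨b, hb, hR⟩)
    · rw [cop_relMap] at hR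
      obtain ⟨j, c, rfl, hR⟩ := hR
      refine ⟨some j, c, ?_, hR⟩
      have : x = (optE J A).symm ∘ (optE J A ∘ x) := by
        rw [← Function.comp_assoc, Equiv.symm_comp_self, Function.id_comp]
      rw [this, ha]
      rfl
    · refine ⟨none, b, ?_, hR⟩
      have : x = (optE J A).symm ∘ (optE J A ∘ x) := by
        rw [← Function.comp_assoc, Equiv.symm_comp_self, Function.id_comp]
      rw [this, hb]
      rfl
  · rintro ⟨i, a, rfl, hR⟩
    cases i with
    | none => exact Or.inr ⟨a, rfl, hR⟩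
    | some j => exact Or.inl ⟨fun k => (j, a k), rfl, ⟨j, a, rfl, hR⟩⟩

/-- a pointed copower -/
theorem tp_cop_point (r : ℕ) {I A : Type} [L.Structure A] (i : I) (x : A) :
    (tp r (Fin.snoc (Fin.elim0 : Fin 0 → I × A) (i, x) : Fin 1 → I × A) : Ty L r 1) =
    tp r (mix (fun _ => Sum.inr 0 : Fin 1 → Fin 0 ⊕ Fin 1)
      (Fin.elim0 : Fin 0 → {j : I // j ≠ i} × A) (fun _ => x : Fin 1 → A)) := by
  classical
  set σ : I ≃ Option {j : I // j ≠ i} := (Equiv.optionSubtypeNe i).symm with hσ
  rw [tp_equiv (Equiv.prodCongr σ (Equiv.refl A)) (fun R x => cop_reindex σ R x) r,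
    tp_equiv (optE {j : I // j ≠ i} A) (fun R x => opt_rel R x) r]
  congr 1
  funext k
  have hk : k = Fin.last 0 := Subsingleton.elim _ _
  rw [hk]
  simp only [Function.comp_apply, Fin.snoc_last, mix, Sum.map_inr]
  have : σ i = none := by
    rw [hσ]
    simp
  simp [this, optE]

theorem atp_cop {I J A : Type} [Nonempty I] [Nonempty J] [L.Structure A] :
    (atp (Fin.elim0 : Fin 0 → I × A) : Set (Atom L 0)) = atp (Fin.elim0 : Fin 0 → J × A) := by
  rw [atp_eq_iff]
  refine ⟨fun i => i.elim0, fun n R f => ?_⟩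
  cases n with
  | succ n => exact (f 0).elim0
  | zero =>
    rw [cop_relMap, cop_relMap]
    obtain ⟨i⟩ := ‹Nonempty I›
    obtain ⟨j⟩ := ‹Nonempty J›
    constructor
    · rintro ⟨_, a, _, hR⟩
      exact ⟨j, a, funext fun k => k.elim0, hR⟩
    · rintro ⟨_, a, _, hR⟩
      exact ⟨i, a, funext fun k => k.elim0, hR⟩

theorem cop_stable (A : Type) [L.Structure A] (r : ℕ) : ∀ (I J : Type) [Finite I] [Finite J],
    r < Nat.card I → r < Nat.card J → t0 L r (I × A) = t0 L r (J × A) := by
  induction r with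
  | zero =>
    intro I J _ _ hI hJ
    have : Nonempty I := (Nat.card_pos_iff.1 hI).1
    have : Nonempty J := (Nat.card_pos_iff.1 hJ).1
    exact atp_cop
  | succ r ih =>
    have key : ∀ (I J : Type) [Finite I] [Finite J], r + 1 < Nat.card I → r + 1 < Nat.card J →
        ∀ a : I × A, ∃ b : J × A,
          (tp r (Fin.snoc (Fin.elim0 : Fin 0 → I × A) a : Fin 1 → I × A) : Ty L r 1) =
          tp r (Fin.snoc (Fin.elim0 : Fin 0 → J × A) b : Fin 1 → J × A) := by
      intro I J _ _ hI hJ a
      obtain ⟨i, x⟩ := a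
      have : Nonempty J := (Nat.card_pos_iff.1 (by omega)).1
      obtain ⟨j⟩ := this
      refine ⟨(j, x), ?_⟩
      rw [tp_cop_point, tp_cop_point]
      refine tp_mix r _ ?_ rfl
      have h1 : Nat.card {k : I // k ≠ i} = Nat.card I - 1 := by
        classical
        have := Fintype.ofFinite I
        rw [Nat.card_eq_fintype_card, Nat.card_eq_fintype_card, Fintype.card_subtype_compl,
          Fintype.card_subtype_eq]
      have h2 : Nat.card {k : J // k ≠ j} = Nat.card J - 1 := by
        classical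
        have := Fintype.ofFinite J
        rw [Nat.card_eq_fintype_card, Nat.card_eq_fintype_card, Fintype.card_subtype_compl,
          Fintype.card_subtype_eq]
      exact ih {k : I // k ≠ i} {k : J // k ≠ j} (by omega) (by omega)
    intro I J _ _ hI hJ
    have : Nonempty I := (Nat.card_pos_iff.1 (by omega)).1
    have : Nonempty J := (Nat.card_pos_iff.1 (by omega)).1
    unfold t0
    rw [tp_succ_iff]
    refine ⟨atp_cop, key I J hI hJ, fun b => ?_⟩
    obtain ⟨a, ha⟩ := key J I hJ hI b
    exact ⟨a, ha.symm⟩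

/-- adding one more structure of the type of `C` -/
theorem t0_add_one (r k : ℕ) {C C' D : Type} [L.Structure C] [L.Structure C'] [L.Structure D]
    (h1 : t0 L r D = t0 L r (Fin k × C)) (h2 : t0 L r C' = t0 L r C) :
    t0 L r (D ⊕ C') = t0 L r (Fin (k + 1) × C) := by
  rw [t0_sum r h1 h2, ← t0_equiv r (optE (Fin k) C) (fun R x => opt_rel R x)]
  exact t0_equiv r (Equiv.prodCongr (finSuccEquivLast (n := k)).symm (Equiv.refl C))
    (fun R x => cop_reindex _ R x)

/-- transport to a standard universe -/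
theorem exists_fin (r : ℕ) (D : Type) [L.Structure D] [Finite D] {s : ℕ} (hs : Nat.card D = s) :
    ∃ _ : L.Structure (Fin s), t0 L r (Fin s) = t0 L r D := by
  have e : D ≃ Fin s := (Finite.equivFin D).trans (finCongr hs)
  letI : L.Structure (Fin s) := e.inducedStructure
  refine ⟨this, (t0_equiv r e ?_).symm⟩
  intro n R x
  exact (e.inducedStructureEquiv (L := L)).map_rel' R x

end Pool.Agent.H69.Sp
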