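import Pool.Agent.H69.Sp.Fm

/-!
# Existential second-order definability over the initial segments with arithmetic
-/

set_option autoImplicit false

namespace Pool.Agent.H69.Sp

/-- the interpretation: `0` is the order, `1` addition, `2` multiplication, `3 + 2 i` is the
parameter `E i`, `4 + 2 i` is the witness `I i` -/
def J (E I : ℕ → List ℕ → Prop) (k : ℕ) (l : List ℕ) : Prop :=
  if k = 0 then ∃ x y, l = [x, y] ∧ x < y
  else if k = 1 then ∃ x y z, l = [x, y, z] ∧ x + y = z
  else if k = 2 then ∃ x y z, l = [x, y, z] ∧ x * y = z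
  else if k % 2 = 1 then E ((k - 3) / 2) l else I ((k - 4) / 2) l

theorem J_E {E I : ℕ → List ℕ → Prop} {i : ℕ} : J E I (3 + 2 * i) = E i := by
  funext l
  unfold J
  rw [if_neg (by omega), if_neg (by omega), if_neg (by omega), if_pos (by omega)]
  congr 1
  omega

theorem J_I {E I : ℕ → List ℕ → Prop} {i : ℕ} : J E I (4 + 2 * i) = I i := by
  funext l
  unfold J
  rw [if_neg (by omega), if_neg (by omega), if_neg (by omega), if_neg (by omega)]
  congr 1
  omega

/-- `P` depends on the size of the universe, on the parameters and on the variables -/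
abbrev Pd := ℕ → (ℕ → List ℕ → Prop) → (ℕ → ℕ) → Prop

/-- first-order definable -/
def FD (P : Pd) : Prop :=
  ∃ φ : Fm, ∀ N E I v, (∀ x, v x < N) → (P N E v ↔ Sat (· < N) (J E I) φ v)

/-- existential second-order definable -/
def ED (P : Pd) : Prop :=
  ∃ φ : Fm, ∀ N E v, (∀ x, v x < N) → (P N E v ↔ ∃ I, Sat (· < N) (J E I) φ v)

theorem FD.ed {P : Pd} (h : FD P) : ED P := by
  obtain ⟨φ, h⟩ := h
  refine ⟨φ, fun N E v hv => ?_⟩
  constructor
  · intro hp
    exact ⟨fun _ _ => False, (h N E _ v hv).1 hp⟩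
  · rintro ⟨I, hI⟩
    exact (h N E I v hv).2 hI

theorem upd_lt {N : ℕ} {v : ℕ → ℕ} (hv : ∀ x, v x < N) {a : ℕ} (ha : a < N) (x : ℕ) :
    ∀ y, Function.update v x a y < N := by
  intro y
  by_cases hy : y = x
  · subst hy; simpa using ha
  · rw [Function.update_of_ne hy]; exact hv y

theorem FD.congr {P Q : Pd} (h : FD P) (hPQ : ∀ N E v, (∀ x, v x < N) → (P N E v ↔ Q N E v)) :
    FD Q := by
  obtain ⟨φ, h⟩ := h
  exact ⟨φ, fun N E I v hv => (hPQ N E v hv).symm.trans (h N E I v hv)⟩

theorem ED.congr {P Q : Pd} (h : ED P) (hPQ : ∀ N E v, (∀ x, v x < N) → (P N E v ↔ Q N E v)) :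
    ED Q := by
  obtain ⟨φ, h⟩ := h
  exact ⟨φ, fun N E v hv => (hPQ N E v hv).symm.trans (h N E v hv)⟩

theorem FD.not {P : Pd} (h : FD P) : FD (fun N E v => ¬ P N E v) := by
  obtain ⟨φ, h⟩ := h
  exact ⟨.neg φ, fun N E I v hv => not_congr (h N E I v hv)⟩

theorem FD.and {P Q : Pd} (h : FD P) (h' : FD Q) : FD (fun N E v => P N E v ∧ Q N E v) := by
  obtain ⟨φ, h⟩ := h
  obtain ⟨ψ, h'⟩ := h'
  exact ⟨.and φ ψ, fun N E I v hv => and_congr (h N E I v hv) (h' N E I v hv)⟩

theorem FD.or {P Q : Pd} (h : FD P) (h' : FD Q) : FD (fun N E v => P N E v ∨ Q N E v) :=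
  (h.not.and h'.not).not.congr fun N E v _ => by tauto

theorem FD.imp {P Q : Pd} (h : FD P) (h' : FD Q) : FD (fun N E v => P N E v → Q N E v) :=
  (h.not.or h').congr fun N E v _ => by tauto

theorem FD.iff {P Q : Pd} (h : FD P) (h' : FD Q) : FD (fun N E v => P N E v ↔ Q N E v) :=
  ((h.imp h').and (h'.imp h)).congr fun N E v _ => by tauto

theorem FD.all {P : Pd} (x : ℕ) (h : FD P) :
    FD (fun N E v => ∀ a, a < N → P N E (Function.update v x a)) := by
  obtain ⟨φ, h⟩ := h
  refine ⟨.all x φ, fun N E I v hv => ?_⟩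
  exact forall₂_congr fun a ha => h N E I _ (upd_lt hv ha x)

theorem FD.ex {P : Pd} (x : ℕ) (h : FD P) :
    FD (fun N E v => ∃ a, a < N ∧ P N E (Function.update v x a)) :=
  (FD.all x h.not).not.congr fun N E v _ => by push Not; rfl

theorem FD.tt : FD (fun _ _ _ => True) :=
  ⟨.eq 0 0, fun N E I v _ => by rw [sat_eq]; simp⟩

theorem FD.ff : FD (fun _ _ _ => False) := FD.tt.not.congr fun N E v _ => by tauto

theorem FD.const (p : Prop) : FD (fun _ _ _ => p) := by
  by_cases hp : p
  · exact FD.tt.congr fun N E v _ => by simp [hp]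
  · exact FD.ff.congr fun N E v _ => by simp [hp]

theorem FD.eq (x y : ℕ) : FD (fun _ _ v => v x = v y) :=
  ⟨.eq x y, fun _ _ _ _ _ => Iff.rfl⟩

theorem FD.lt (x y : ℕ) : FD (fun _ _ v => v x < v y) :=
  ⟨.rel 0 [x, y], fun N E I v _ => by rw [sat_rel]; unfold J; simp⟩

theorem FD.le (x y : ℕ) : FD (fun _ _ v => v x ≤ v y) :=
  (FD.lt y x).not.congr fun N E v _ => by simp

theorem FD.add (x y z : ℕ) : FD (fun _ _ v => v x + v y = v z) :=
  ⟨.rel 1 [x, y, z], fun N E I v _ => by rw [sat_rel]; unfold J; simp [eq_comm]⟩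

theorem FD.mul (x y z : ℕ) : FD (fun _ _ v => v x * v y = v z) :=
  ⟨.rel 2 [x, y, z], fun N E I v _ => by rw [sat_rel]; unfold J; simp [eq_comm]⟩

theorem FD.par (i : ℕ) (xs : List ℕ) : FD (fun _ E v => E i (xs.map v)) :=
  ⟨.rel (3 + 2 * i) xs, fun N E I v _ => by rw [sat_rel, J_E]⟩

/-- rename the relation symbols -/
def Fm.ren (f : ℕ → ℕ) : Fm → Fm
  | .rel i xs => .rel (f i) xs
  | .eq x y => .eq x y
  | .neg φ => .neg (φ.ren f)
  | .and φ ψ => .and (φ.ren f) (ψ.ren f)
  | .all x φ => .all x (φ.ren f)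

theorem sat_ren {M : Type} {D : M → Prop} {I : ℕ → List M → Prop} {f : ℕ → ℕ} {φ : Fm}
    {v : ℕ → M} : Sat D I (φ.ren f) v ↔ Sat D (fun i => I (f i)) φ v := by
  induction φ generalizing v with
  | rel i xs => exact Iff.rfl
  | eq x y => exact Iff.rfl
  | neg φ ih => exact not_congr ih
  | and φ ψ ih1 ih2 => exact and_congr ih1 ih2
  | all x φ ih => exact forall₂_congr fun a _ => ih

/-- rename the witnesses -/
def rw' (g : ℕ → ℕ) (k : ℕ) : ℕ := if k < 3 ∨ k % 2 = 1 then k else 4 + 2 * g ((k - 4) / 2)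

theorem J_rw' {E I : ℕ → List ℕ → Prop} {g : ℕ → ℕ} :
    (fun i => J E I (rw' g i)) = J E (fun i => I (g i)) := by
  funext k
  unfold rw'
  by_cases h : k < 3 ∨ k % 2 = 1
  · rw [if_pos h]
    funext l
    unfold J
    by_cases h0 : k = 0
    · rw [if_pos h0, if_pos h0]
    · rw [if_neg h0, if_neg h0]
      by_cases h1 : k = 1
      · rw [if_pos h1, if_pos h1]
      · rw [if_neg h1, if_neg h1]
        by_cases h2 : k = 2
        · rw [if_pos h2, if_pos h2]
        · rw [if_neg h2, if_neg h2, if_pos (by omega), if_pos (by omega)]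
  · rw [if_neg h, J_I]
    funext l
    unfold J
    rw [if_neg (by omega), if_neg (by omega), if_neg (by omega), if_neg (by omega)]

theorem ED.and {P Q : Pd} (h : ED P) (h' : ED Q) : ED (fun N E v => P N E v ∧ Q N E v) := by
  obtain ⟨φ, h⟩ := h
  obtain ⟨ψ, h'⟩ := h'
  refine ⟨.and (φ.ren (rw' (fun i => 2 * i))) (ψ.ren (rw' (fun i => 2 * i + 1))),
    fun N E v hv => ?_⟩
  beta_reduce
  rw [h N E v hv, h' N E v hv]
  constructor
  · rintro ⟨⟨I1, h1⟩, I2, h2⟩
    refine ⟨fun i => if i % 2 = 0 then I1 (i / 2) else I2 (i / 2), ?_⟩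
    rw [sat_and, sat_ren, sat_ren, J_rw', J_rw']
    refine ⟨?_, ?_⟩
    · have : (fun i => (if (2 * i) % 2 = 0 then I1 (2 * i / 2) else I2 (2 * i / 2))) = I1 := by
        funext i
        rw [if_pos (by omega)]
        congr 1
        omega
      rw [this]; exact h1
    · have : (fun i => (if (2 * i + 1) % 2 = 0 then I1 ((2 * i + 1) / 2) else
          I2 ((2 * i + 1) / 2))) = I2 := by
        funext i
        rw [if_neg (by omega)]
        congr 1
        omega
      rw [this]; exact h2
  · rintro ⟨I, hI⟩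
    rw [sat_and, sat_ren, sat_ren, J_rw', J_rw'] at hI
    exact ⟨⟨_, hI.1⟩, _, hI.2⟩

theorem ED.or {P Q : Pd} (h : ED P) (h' : ED Q) : ED (fun N E v => P N E v ∨ Q N E v) := by
  obtain ⟨φ, h⟩ := h
  obtain ⟨ψ, h'⟩ := h'
  refine ⟨.neg (.and (.neg φ) (.neg ψ)), fun N E v hv => ?_⟩
  beta_reduce
  rw [h N E v hv, h' N E v hv, ← exists_or]
  refine exists_congr fun I => ?_
  rw [sat_neg, sat_and, sat_neg, sat_neg]
  tauto

theorem ED.ex {P : Pd} (x : ℕ) (h : ED P) :
    ED (fun N E v => ∃ a, a < N ∧ P N E (Function.update v x a)) := by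
  obtain ⟨φ, h⟩ := h
  refine ⟨.neg (.all x (.neg φ)), fun N E v hv => ?_⟩
  have h1 : ∀ I, Sat (· < N) (J E I) (.neg (.all x (.neg φ))) v ↔
      ∃ a, a < N ∧ Sat (· < N) (J E I) φ (Function.update v x a) := by
    intro I
    rw [sat_neg, sat_all]
    simp only [sat_neg]
    push Not
    rfl
  simp only [h1]
  constructor
  · rintro ⟨a, ha, hP⟩
    obtain ⟨I, hI⟩ := (h N E _ (upd_lt hv ha x)).1 hP
    exact ⟨I, a, ha, hI⟩
  · rintro ⟨I, a, ha, hI⟩
    exact ⟨a, ha, (h N E _ (upd_lt hv ha x)).2 ⟨I, hI⟩⟩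

/-- existential quantification over a relation -/
theorem ED.exR {P : Pd} (j : ℕ) (h : ED P) :
    ED (fun N E v => ∃ R : List ℕ → Prop, P N (Function.update E j R) v) := by
  obtain ⟨φ, h⟩ := h
  refine ⟨φ.ren (fun k => if k = 3 + 2 * j then 4 else rw' (fun i => i + 1) k),
    fun N E v hv => ?_⟩
  have key : ∀ I, (fun k => J E I (if k = 3 + 2 * j then 4 else rw' (fun i => i + 1) k)) =
      J (Function.update E j (I 0)) (fun i => I (i + 1)) := by
    intro I
    funext k
    by_cases hk : k = 3 + 2 * j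
    · rw [if_pos hk, hk, J_E]
      have := J_I (E := E) (I := I) (i := 0)
      simpa using this
    · rw [if_neg hk]
      have h1 : J E I (rw' (fun i => i + 1) k) = J E (fun i => I (i + 1)) k :=
        congrFun (J_rw' (E := E) (I := I) (g := fun i => i + 1)) k
      rw [h1]
      funext l
      unfold J
      by_cases h0 : k = 0
      · rw [if_pos h0, if_pos h0]
      · rw [if_neg h0, if_neg h0]
        by_cases h1 : k = 1
        · rw [if_pos h1, if_pos h1]
        · rw [if_neg h1, if_neg h1]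
          by_cases h2 : k = 2
          · rw [if_pos h2, if_pos h2]
          · rw [if_neg h2, if_neg h2]
            by_cases h3 : k % 2 = 1
            · rw [if_pos h3, if_pos h3, Function.update_of_ne (by omega)]
            · rw [if_neg h3, if_neg h3]
  constructor
  · rintro ⟨R, hR⟩
    obtain ⟨I, hI⟩ := (h N _ v hv).1 hR
    refine ⟨fun i => if i = 0 then R else I (i - 1), ?_⟩
    rw [sat_ren, key]
    simpa using hI
  · rintro ⟨I, hI⟩
    rw [sat_ren, key] at hI
    exact ⟨I 0, (h N _ v hv).2 ⟨_, hI⟩⟩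

/-- add the variable `z` as the first argument of the witnesses -/
def Fm.arg (z : ℕ) : Fm → Fm
  | .rel i xs => if i < 3 ∨ i % 2 = 1 then .rel i xs else .rel i (z :: xs)
  | .eq x y => .eq x y
  | .neg φ => .neg (φ.arg z)
  | .and φ ψ => .and (φ.arg z) (ψ.arg z)
  | .all x φ => .all x (φ.arg z)

theorem sat_arg {D : ℕ → Prop} {E I : ℕ → List ℕ → Prop} {z : ℕ} {φ : Fm} {v : ℕ → ℕ}
    (hz : φ.bd ≤ z) :
    Sat D (J E I) (φ.arg z) v ↔ Sat D (J E (fun i l => I i (v z :: l))) φ v := by
  induction φ generalizing v with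
  | rel i xs =>
    unfold Fm.arg
    by_cases h : i < 3 ∨ i % 2 = 1
    · rw [if_pos h, sat_rel, sat_rel]
      unfold J
      by_cases h0 : i = 0
      · rw [if_pos h0, if_pos h0]
      · rw [if_neg h0, if_neg h0]
        by_cases h1 : i = 1
        · rw [if_pos h1, if_pos h1]
        · rw [if_neg h1, if_neg h1]
          by_cases h2 : i = 2
          · rw [if_pos h2, if_pos h2]
          · rw [if_neg h2, if_neg h2, if_pos (by omega), if_pos (by omega)]
    · rw [if_neg h, sat_rel, sat_rel, List.map_cons]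
      unfold J
      rw [if_neg (by omega), if_neg (by omega), if_neg (by omega), if_neg (by omega),
        if_neg (by omega), if_neg (by omega), if_neg (by omega), if_neg (by omega)]
  | eq x y => exact Iff.rfl
  | neg φ ih => exact not_congr (ih (by unfold Fm.bd at hz; exact hz))
  | and φ ψ ih1 ih2 =>
    unfold Fm.bd at hz
    exact and_congr (ih1 (by omega)) (ih2 (by omega))
  | all x φ ih =>
    unfold Fm.bd at hz
    refine forall₂_congr fun a _ => ?_
    rw [ih (by omega), Function.update_of_ne (by omega)]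

theorem ED.all {P : Pd} (x : ℕ) (h : ED P) :
    ED (fun N E v => ∀ a, a < N → P N E (Function.update v x a)) := by
  obtain ⟨φ, h⟩ := h
  set z := φ.bd + x + 1 with hz
  refine ⟨.all x (.all z (.neg (.and (.eq z x) (.neg (φ.arg z))))), fun N E v hv => ?_⟩
  have key : ∀ I, Sat (· < N) (J E I) (.all x (.all z (.neg (.and (.eq z x) (.neg (φ.arg z)))))) v ↔
      ∀ a, a < N → Sat (· < N) (J E (fun i l => I i (a :: l))) φ (Function.update v x a) := by
    intro I
    rw [sat_all]
    refine forall₂_congr fun a ha => ?_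
    rw [sat_all]
    have h1 : ∀ b, Sat (· < N) (J E I) (.neg (.and (.eq z x) (.neg (φ.arg z))))
        (Function.update (Function.update v x a) z b) ↔
        (b = a → Sat (· < N) (J E (fun i l => I i (a :: l))) φ (Function.update v x a)) := by
      intro b
      rw [sat_neg, sat_and, sat_eq, sat_neg, sat_arg (by omega)]
      rw [Function.update_self, Function.update_of_ne (show x ≠ z by omega), Function.update_self]
      constructor
      · intro h2 hb
        subst hb
        have h3 : Sat (· < N) (J E (fun i l => I i (b :: l))) φ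
            (Function.update (Function.update v x b) z b) := by
          by_contra h4
          exact h2 ⟨rfl, h4⟩
        refine (sat_congr ?_).1 h3
        intro y hy
        rw [Function.update_of_ne (by omega)]
      · rintro h2 ⟨rfl, h4⟩
        refine h4 ((sat_congr ?_).1 (h2 rfl))
        intro y hy
        rw [Function.update_of_ne (show y ≠ z by omega)]
    constructor
    · intro h2
      exact (h1 a).1 (h2 a ha) rfl
    · intro h2 b _
      exact (h1 b).2 fun _ => h2
  simp only [key]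
  constructor
  · intro hP
    have h1 : ∀ a, ∃ I, a < N → Sat (· < N) (J E I) φ (Function.update v x a) := by
      intro a
      by_cases ha : a < N
      · obtain ⟨I, hI⟩ := (h N E _ (upd_lt hv ha x)).1 (hP a ha)
        exact ⟨I, fun _ => hI⟩
      · exact ⟨fun _ _ => False, fun h' => absurd h' ha⟩
    choose F hF using h1
    refine ⟨fun i l => F (l.headD 0) i l.tail, fun a ha => ?_⟩
    simpa using hF a ha
  · rintro ⟨I, hI⟩ a ha
    exact (h N E _ (upd_lt hv ha x)).2 ⟨_, hI a ha⟩

/-- relativise the quantifiers to the elements below `z` -/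
def Fm.rlt (z : ℕ) : Fm → Fm
  | .rel i xs => .rel i xs
  | .eq x y => .eq x y
  | .neg φ => .neg (φ.rlt z)
  | .and φ ψ => .and (φ.rlt z) (ψ.rlt z)
  | .all x φ => .all x (.neg (.and (.rel 0 [x, z]) (.neg (φ.rlt z))))

/-- the variable `z` is not bound -/
def Fm.nb (z : ℕ) : Fm → Prop
  | .rel _ _ => True
  | .eq _ _ => True
  | .neg φ => φ.nb z
  | .and φ ψ => φ.nb z ∧ ψ.nb z
  | .all x φ => x ≠ z ∧ φ.nb z

theorem sat_rlt {N : ℕ} {E I : ℕ → List ℕ → Prop} {z : ℕ} {φ : Fm} {v : ℕ → ℕ}
    (hz : φ.nb z) (hN : v z < N) :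
    Sat (· < N) (J E I) (φ.rlt z) v ↔ Sat (· < v z) (J E I) φ v := by
  induction φ generalizing v with
  | rel i xs => exact Iff.rfl
  | eq x y => exact Iff.rfl
  | neg φ ih => exact not_congr (ih hz hN)
  | and φ ψ ih1 ih2 => exact and_congr (ih1 hz.1 hN) (ih2 hz.2 hN)
  | all x φ ih =>
    unfold Fm.rlt
    rw [sat_all, sat_all]
    have h1 : ∀ a, Sat (· < N) (J E I) (.neg (.and (.rel 0 [x, z]) (.neg (φ.rlt z))))
        (Function.update v x a) ↔ (a < v z → Sat (· < v z) (J E I) φ (Function.update v x a)) := by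
      intro a
      have hu : Function.update v x a z = v z := Function.update_of_ne (Ne.symm hz.1) _ _
      rw [sat_neg, sat_and, sat_neg, sat_rel, ih hz.2 (by rw [hu]; exact hN), hu]
      unfold J
      simp only [List.map_cons, List.map_nil, if_true, hu, Function.update_self]
      constructor
      · intro h2 ha
        by_contra h3
        exact h2 ⟨⟨a, v z, rfl, ha⟩, h3⟩
      · rintro h2 ⟨⟨x', y', h3, h4⟩, h5⟩
        simp only [List.cons.injEq, and_true] at h3
        exact h5 (h2 (by omega))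
    constructor
    · intro h2 a ha
      exact (h1 a).1 (h2 a (by omega)) ha
    · intro h2 a _
      exact (h1 a).2 (h2 a)

theorem nb_sh {φ : Fm} {k z : ℕ} (h : z < k) : (φ.sh k).nb z := by
  induction φ with
  | rel i xs => trivial
  | eq x y => trivial
  | neg φ ih => exact ih
  | and φ ψ ih1 ih2 => exact ⟨ih1, ih2⟩
  | all x φ ih => exact ⟨by omega, ih⟩

theorem nb_ren {φ : Fm} {f : ℕ → ℕ} {z : ℕ} (h : φ.nb z) : (φ.ren f).nb z := by
  induction φ with
  | rel i xs => trivial
  | eq x y => trivial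
  | neg φ ih => exact ih h
  | and φ ψ ih1 ih2 => exact ⟨ih1 h.1, ih2 h.2⟩
  | all x φ ih => exact ⟨h.1, ih h.2⟩

/-- membership in a spectrum is definable -/
theorem ED.mem {S : Set ℕ} {φ : Fm} (hc : Closed φ) (hd : Defs φ S) (x : ℕ) :
    ED (fun _ _ v => v x ∈ S) := by
  have h1 : ED (fun N E v => (0 < v x) ∧ ∃ I, Sat (· < v x) I φ v) := by
    refine ED.and ?_ ?_
    · refine (FD.ex (x + 1) (FD.lt (x + 1) x)).ed.congr fun N E v hv => ?_
      constructor
      · rintro ⟨a, ha, h⟩
        simp only [Function.update_self] at h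
        rw [Function.update_of_ne (by omega)] at h
        omega
      · intro h
        refine ⟨0, by have := hv x; omega, ?_⟩
        simp only [Function.update_self]
        rw [Function.update_of_ne (by omega)]
        exact h
    · refine ⟨((φ.sh (x + 1)).ren (fun k => 4 + 2 * k)).rlt x, fun N E v hv => ?_⟩
      have h2 : ∀ I, Sat (· < N) (J E I) (((φ.sh (x + 1)).ren (fun k => 4 + 2 * k)).rlt x) v ↔
          Sat (· < v x) I φ v := by
        intro I
        rw [sat_rlt (nb_ren (nb_sh (by omega))) (hv x), sat_ren, sat_sh]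
        simp only [J_I]
        exact hc _ _ _ _ _
      simp only [h2]
  refine h1.congr fun N E v hv => ?_
  rw [hd (v x)]
  refine and_congr_right fun _ => exists_congr fun I => hc _ _ _ _ _

end Pool.Agent.H69.Sp
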