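import Pool.Agent.H69.Sp.Ed

/-!
# Elimination of the arithmetic
-/

set_option autoImplicit false

namespace Pool.Agent.H69.Sp

/-- first-order definable without arithmetic -/
def GD (P : Pd) : Prop := ∃ φ : Fm, ∀ N I v, P N I v ↔ Sat (· < N) I φ v

theorem GD.not {P : Pd} (h : GD P) : GD (fun N I v => ¬ P N I v) := by
  obtain ⟨φ, h⟩ := h
  exact ⟨.neg φ, fun N I v => not_congr (h N I v)⟩

theorem GD.and {P Q : Pd} (h : GD P) (h' : GD Q) : GD (fun N I v => P N I v ∧ Q N I v) := by
  obtain ⟨φ, h⟩ := h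
  obtain ⟨ψ, h'⟩ := h'
  exact ⟨.and φ ψ, fun N I v => and_congr (h N I v) (h' N I v)⟩

theorem GD.congr {P Q : Pd} (h : GD P) (hPQ : ∀ N I v, (P N I v ↔ Q N I v)) : GD Q := by
  obtain ⟨φ, h⟩ := h
  exact ⟨φ, fun N I v => (hPQ N I v).symm.trans (h N I v)⟩

theorem GD.or {P Q : Pd} (h : GD P) (h' : GD Q) : GD (fun N I v => P N I v ∨ Q N I v) :=
  (h.not.and h'.not).not.congr fun N I v => by tauto

theorem GD.imp {P Q : Pd} (h : GD P) (h' : GD Q) : GD (fun N I v => P N I v → Q N I v) :=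
  (h.not.or h').congr fun N I v => by tauto

theorem GD.iff {P Q : Pd} (h : GD P) (h' : GD Q) : GD (fun N I v => P N I v ↔ Q N I v) :=
  ((h.imp h').and (h'.imp h)).congr fun N I v => by tauto

theorem GD.all {P : Pd} (x : ℕ) (h : GD P) :
    GD (fun N I v => ∀ a, a < N → P N I (Function.update v x a)) := by
  obtain ⟨φ, h⟩ := h
  refine ⟨.all x φ, fun N I v => ?_⟩
  exact forall₂_congr fun a ha => h N I _

theorem GD.ex {P : Pd} (x : ℕ) (h : GD P) :
    GD (fun N I v => ∃ a, a < N ∧ P N I (Function.update v x a)) :=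
  (GD.all x h.not).not.congr fun N I v => by push Not; rfl

theorem GD.eq (x y : ℕ) : GD (fun _ _ v => v x = v y) := ⟨.eq x y, fun _ _ _ => Iff.rfl⟩

theorem GD.rel (i : ℕ) (xs : List ℕ) : GD (fun _ I v => I i (xs.map v)) :=
  ⟨.rel i xs, fun _ _ _ => Iff.rfl⟩

/-- successor -/
def Sc (N : ℕ) (I : ℕ → List ℕ → Prop) (a b : ℕ) : Prop :=
  I 0 [a, b] ∧ ∀ u, u < N → ¬ (I 0 [a, u] ∧ I 0 [u, b])

theorem GD.sc (x y z : ℕ) (hx : x ≠ z) (hy : y ≠ z) : GD (fun N I v => Sc N I (v x) (v y)) :=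
  ((GD.rel 0 [x, y]).and (GD.all z ((GD.rel 0 [x, z]).and (GD.rel 0 [z, y])).not)).congr
    fun N I v => by
      unfold Sc
      simp [Function.update_of_ne hx, Function.update_of_ne hy]

/-- the axioms of arithmetic -/
structure Ax (N : ℕ) (I : ℕ → List ℕ → Prop) (o : ℕ) : Prop where
  irr : ∀ a, a < N → ¬ I 0 [a, a]
  tr : ∀ a, a < N → ∀ b, b < N → ∀ c, c < N → (I 0 [a, b] ∧ I 0 [b, c]) → I 0 [a, c]
  tri : ∀ a, a < N → ∀ b, b < N → (a = b ∨ I 0 [a, b]) ∨ I 0 [b, a]
  least : ∀ a, a < N → ¬ I 0 [a, o]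
  add0 : ∀ a, a < N → ∀ c, c < N → (I 1 [a, o, c] ↔ c = a)
  addS : ∀ a, a < N → ∀ b, b < N → ∀ b', b' < N → ∀ c, c < N → Sc N I b b' →
    (I 1 [a, b', c] ↔ ∃ w, w < N ∧ I 1 [a, b, w] ∧ Sc N I w c)
  mul0 : ∀ a, a < N → ∀ c, c < N → (I 2 [a, o, c] ↔ c = o)
  mulS : ∀ a, a < N → ∀ b, b < N → ∀ b', b' < N → ∀ c, c < N → Sc N I b b' →
    (I 2 [a, b', c] ↔ ∃ w, w < N ∧ I 2 [a, b, w] ∧ I 1 [w, a, c])

theorem GD.ax : GD (fun N I v => Ax N I (v 9)) := by
  have h1 := GD.all 0 (GD.rel 0 [0, 0]).not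
  have h2 := GD.all 0 (GD.all 1 (GD.all 2
    (((GD.rel 0 [0, 1]).and (GD.rel 0 [1, 2])).imp (GD.rel 0 [0, 2]))))
  have h3 := GD.all 0 (GD.all 1 (((GD.eq 0 1).or (GD.rel 0 [0, 1])).or (GD.rel 0 [1, 0])))
  have h4 := GD.all 0 (GD.rel 0 [0, 9]).not
  have h5 := GD.all 0 (GD.all 1 ((GD.rel 1 [0, 9, 1]).iff (GD.eq 1 0)))
  have h6 := GD.all 0 (GD.all 1 (GD.all 2 (GD.all 3
    ((GD.sc 1 2 8 (by omega) (by omega)).imp ((GD.rel 1 [0, 2, 3]).iff
      (GD.ex 4 ((GD.rel 1 [0, 1, 4]).and (GD.sc 4 3 8 (by omega) (by omega)))))))))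
  have h7 := GD.all 0 (GD.all 1 ((GD.rel 2 [0, 9, 1]).iff (GD.eq 1 9)))
  have h8 := GD.all 0 (GD.all 1 (GD.all 2 (GD.all 3
    ((GD.sc 1 2 8 (by omega) (by omega)).imp ((GD.rel 2 [0, 2, 3]).iff
      (GD.ex 4 ((GD.rel 2 [0, 1, 4]).and (GD.rel 1 [4, 0, 3]))))))))
  refine (((((((h1.and h2).and h3).and h4).and h5).and h6).and h7).and h8).congr fun N I v => ?_
  simp only [List.map_cons, List.map_nil, Function.update_self, ne_eq, OfNat.ofNat_ne_zero,
    OfNat.ofNat_ne_one, Nat.reduceEqDiff, not_false_eq_true, Function.update_of_ne,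
    zero_ne_one, OfNat.zero_ne_ofNat, OfNat.one_ne_ofNat]
  constructor
  · rintro ⟨⟨⟨⟨⟨⟨⟨h1, h2⟩, h3⟩, h4⟩, h5⟩, h6⟩, h7⟩, h8⟩
    exact ⟨h1, h2, h3, h4, h5, h6, h7, h8⟩
  · rintro ⟨h1, h2, h3, h4, h5, h6, h7, h8⟩
    exact ⟨⟨⟨⟨⟨⟨⟨h1, h2⟩, h3⟩, h4⟩, h5⟩, h6⟩, h7⟩, h8⟩

/-- the axioms determine the structure -/
theorem Ax.exists_rank {N : ℕ} {I : ℕ → List ℕ → Prop} (hN : 0 < N) (h : Ax N I 0) :
    ∃ r : ℕ → ℕ, (∀ a < N, r a < N) ∧ (∀ b < N, ∃ a, a < N ∧ r a = b) ∧
      (∀ a b, a < N → b < N → r a = r b → a = b) ∧ r 0 = 0 ∧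
      (∀ a b, a < N → b < N → (I 0 [a, b] ↔ r a < r b)) ∧
      (∀ a b c, a < N → b < N → c < N → (I 1 [a, b, c] ↔ r a + r b = r c)) ∧
      (∀ a b c, a < N → b < N → c < N → (I 2 [a, b, c] ↔ r a * r b = r c)) := by
  classical
  set r : ℕ → ℕ := fun a => ((Finset.range N).filter (fun b => I 0 [b, a])).card with hr
  have hmono : ∀ a b, a < N → b < N → I 0 [a, b] → r a < r b := by
    intro a b ha hb hab
    refine Finset.card_lt_card ?_
    rw [Finset.ssubset_iff_of_subset]
    · refine ⟨a, ?_, ?_⟩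
      · simp [ha, hab]
      · simp [h.irr a ha]
    · intro c hc
      simp only [Finset.mem_filter, Finset.mem_range] at hc ⊢
      exact ⟨hc.1, h.tr c hc.1 a ha b hb ⟨hc.2, hab⟩⟩
  have hltiff : ∀ a b, a < N → b < N → (I 0 [a, b] ↔ r a < r b) := by
    intro a b ha hb
    refine ⟨hmono a b ha hb, fun hlt => ?_⟩
    rcases h.tri a ha b hb with (rfl | h1) | h1
    · omega
    · exact h1
    · have := hmono b a hb ha h1
      omega
  have hinj : ∀ a b, a < N → b < N → r a = r b → a = b := by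
    intro a b ha hb hab
    rcases h.tri a ha b hb with (h1 | h1) | h1
    · exact h1
    · have := hmono a b ha hb h1; omega
    · have := hmono b a hb ha h1; omega
  have hlt : ∀ a < N, r a < N := by
    intro a ha
    have h1 : ((Finset.range N).filter (fun b => I 0 [b, a])) ⊂ Finset.range N := by
      rw [Finset.ssubset_iff_of_subset (Finset.filter_subset _ _)]
      exact ⟨a, by simp [ha], by simp [h.irr a ha]⟩
    have := Finset.card_lt_card h1
    simpa using this
  have hsurj : ∀ b < N, ∃ a, a < N ∧ r a = b := by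
    have h1 : Function.Injective (fun a : Fin N => (⟨r a, hlt a a.isLt⟩ : Fin N)) := by
      intro a b hab
      exact Fin.ext (hinj _ _ a.isLt b.isLt (by simpa using hab))
    intro b hb
    obtain ⟨a, ha⟩ := Finite.injective_iff_surjective.1 h1 ⟨b, hb⟩
    exact ⟨a, a.isLt, by simpa using ha⟩
  have hr0 : r 0 = 0 := by
    rw [hr]
    simp only [Finset.card_eq_zero]
    ext b
    simp only [Finset.mem_filter, Finset.mem_range, Finset.notMem_empty, iff_false, not_and]
    exact fun hb => h.least b hb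
  have hsc : ∀ a b, a < N → b < N → (Sc N I a b ↔ r b = r a + 1) := by
    intro a b ha hb
    unfold Sc
    rw [hltiff a b ha hb]
    constructor
    · rintro ⟨h1, h2⟩
      by_contra h3
      obtain ⟨u, hu, hu2⟩ := hsurj (r a + 1) (by have := hlt b hb; omega)
      refine h2 u hu ⟨(hltiff a u ha hu).2 (by omega), (hltiff u b hu hb).2 (by omega)⟩
    · intro h1
      refine ⟨by omega, ?_⟩
      rintro u hu ⟨h2, h3⟩
      rw [hltiff a u ha hu] at h2
      rw [hltiff u b hu hb] at h3
      omega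
  have hadd : ∀ a b c, a < N → b < N → c < N → (I 1 [a, b, c] ↔ r a + r b = r c) := by
    have h1 : ∀ k, ∀ a b c, r b = k → a < N → b < N → c < N →
        (I 1 [a, b, c] ↔ r a + r b = r c) := by
      intro k
      induction k with
      | zero =>
        intro a b c hk ha hb hc
        have hb0 : b = 0 := hinj b 0 hb hN (by omega)
        subst hb0
        rw [h.add0 a ha c hc, hr0]
        exact ⟨fun h2 => by rw [h2]; omega, fun h2 => (hinj _ _ ha hc (by omega)).symm⟩
      | succ k ih =>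
        intro a b c hk ha hb hc
        obtain ⟨b0, hb0, hb1⟩ := hsurj k (by have := hlt b hb; omega)
        rw [h.addS a ha b0 hb0 b hb c hc ((hsc b0 b hb0 hb).2 (by omega))]
        constructor
        · rintro ⟨w, hw, h2, h3⟩
          rw [ih a b0 w hb1 ha hb0 hw] at h2
          rw [hsc w c hw hc] at h3
          omega
        · intro h2
          obtain ⟨w, hw, hw1⟩ := hsurj (r a + k) (by have := hlt c hc; omega)
          refine ⟨w, hw, (ih a b0 w hb1 ha hb0 hw).2 (by omega), (hsc w c hw hc).2 (by omega)⟩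
    exact fun a b c => h1 (r b) a b c rfl
  have hmul : ∀ a b c, a < N → b < N → c < N → (I 2 [a, b, c] ↔ r a * r b = r c) := by
    have h1 : ∀ k, ∀ a b c, r b = k → a < N → b < N → c < N →
        (I 2 [a, b, c] ↔ r a * r b = r c) := by
      intro k
      induction k with
      | zero =>
        intro a b c hk ha hb hc
        have hb0 : b = 0 := hinj b 0 hb hN (by omega)
        subst hb0
        rw [h.mul0 a ha c hc, hr0]
        exact ⟨fun h2 => by rw [h2, hr0]; omega, fun h2 => (hinj _ _ hc hN (by omega))⟩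
      | succ k ih =>
        intro a b c hk ha hb hc
        obtain ⟨b0, hb0, hb1⟩ := hsurj k (by have := hlt b hb; omega)
        rw [h.mulS a ha b0 hb0 b hb c hc ((hsc b0 b hb0 hb).2 (by omega)), hk]
        constructor
        · rintro ⟨w, hw, h2, h3⟩
          rw [ih a b0 w hb1 ha hb0 hw, hb1] at h2
          rw [hadd w a c hw ha hc] at h3
          rw [← h3, ← h2]
          ring
        · intro h2
          have h3 : r a * (k + 1) = r a * k + r a := by ring
          obtain ⟨w, hw, hw1⟩ := hsurj (r a * k) (by have := hlt c hc; omega)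
          refine ⟨w, hw, (ih a b0 w hb1 ha hb0 hw).2 (by rw [hb1, hw1]), ?_⟩
          exact (hadd w a c hw ha hc).2 (by omega)
    exact fun a b c => h1 (r b) a b c rfl
  exact ⟨r, hlt, hsurj, hinj, hr0, hltiff, hadd, hmul⟩

/-- replace the wrong uses of the arithmetic symbols by falsity -/
def Fm.cl : Fm → Fm
  | .rel i xs => if (i = 0 ∧ xs.length ≠ 2) ∨ ((i = 1 ∨ i = 2) ∧ xs.length ≠ 3) then
      .neg (.eq 0 0) else .rel i xs
  | .eq x y => .eq x y
  | .neg φ => .neg φ.cl
  | .and φ ψ => .and φ.cl ψ.cl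
  | .all x φ => .all x φ.cl

/-- make the wrong uses false -/
def Icl {M : Type} (I : ℕ → List M → Prop) (i : ℕ) (l : List M) : Prop :=
  ¬ ((i = 0 ∧ l.length ≠ 2) ∨ ((i = 1 ∨ i = 2) ∧ l.length ≠ 3)) ∧ I i l

theorem sat_cl {M : Type} {D : M → Prop} {I : ℕ → List M → Prop} {φ : Fm} {v : ℕ → M} :
    Sat D I φ.cl v ↔ Sat D (Icl I) φ v := by
  induction φ generalizing v with
  | rel i xs =>
    unfold Fm.cl Icl
    by_cases h : (i = 0 ∧ xs.length ≠ 2) ∨ ((i = 1 ∨ i = 2) ∧ xs.length ≠ 3)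
    · rw [if_pos h, sat_neg, sat_eq, sat_rel]
      simp only [List.length_map]
      tauto
    · rw [if_neg h, sat_rel, sat_rel]
      simp only [List.length_map]
      tauto
  | eq x y => exact Iff.rfl
  | neg φ ih => exact not_congr ih
  | and φ ψ ih1 ih2 => exact and_congr ih1 ih2
  | all x φ ih => exact forall₂_congr fun a _ => ih

theorem J_ax {E I : ℕ → List ℕ → Prop} {N : ℕ} : Ax N (J E I) 0 := by
  have h0 : ∀ a b, J E I 0 [a, b] ↔ a < b := by intro a b; unfold J; simp
  have h1 : ∀ a b c, J E I 1 [a, b, c] ↔ a + b = c := by intro a b c; unfold J; simp [eq_comm]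
  have h2 : ∀ a b c, J E I 2 [a, b, c] ↔ a * b = c := by intro a b c; unfold J; simp [eq_comm]
  have hs : ∀ a b, a < N → b < N → (Sc N (J E I) a b ↔ b = a + 1) := by
    intro a b ha hb
    unfold Sc
    rw [h0]
    constructor
    · rintro ⟨h3, h4⟩
      by_contra h5
      exact h4 (a + 1) (by omega) ⟨(h0 _ _).2 (by omega), (h0 _ _).2 (by omega)⟩
    · rintro rfl
      refine ⟨by omega, ?_⟩
      rintro u _ ⟨h3, h4⟩
      rw [h0] at h3 h4
      omega
  refine ⟨?_, ?_, ?_, ?_, ?_, ?_, ?_, ?_⟩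
  · intro a _; rw [h0]; omega
  · intro a _ b _ c _; rw [h0, h0, h0]; omega
  · intro a _ b _; rw [h0, h0]; omega
  · intro a _; rw [h0]; omega
  · intro a _ c _; rw [h1]; omega
  · intro a _ b hb b' hb' c hc h3
    rw [hs _ _ hb hb'] at h3
    rw [h1]
    constructor
    · intro h4
      exact ⟨a + b, by omega, (h1 _ _ _).2 rfl, (hs _ _ (by omega) hc).2 (by omega)⟩
    · rintro ⟨w, hw, h4, h5⟩
      rw [h1] at h4
      rw [hs _ _ hw hc] at h5
      omega
  · intro a _ c _; rw [h2]; omega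
  · intro a ha b hb b' hb' c hc h3
    rw [hs _ _ hb hb'] at h3
    rw [h2, h3]
    have h6 : a * (b + 1) = a * b + a := by ring
    constructor
    · intro h4
      exact ⟨a * b, by omega, (h2 _ _ _).2 rfl, (h1 _ _ _).2 (by omega)⟩
    · rintro ⟨w, hw, h4, h5⟩
      rw [h2] at h4
      rw [h1] at h5
      omega

theorem J_Icl {E I : ℕ → List ℕ → Prop} : Icl (J E I) = J E I := by
  funext i l
  apply propext
  unfold Icl
  refine ⟨fun h => h.2, fun h => ⟨?_, h⟩⟩
  unfold J at h
  rintro (⟨rfl, h1⟩ | ⟨rfl | rfl, h1⟩)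
  · simp only [if_true] at h
    obtain ⟨x, y, rfl, _⟩ := h
    simp at h1
  · simp only [if_true, one_ne_zero, if_false] at h
    obtain ⟨x, y, z, rfl, _⟩ := h
    simp at h1
  · simp only [if_true, OfNat.ofNat_ne_zero, OfNat.ofNat_ne_one, if_false] at h
    obtain ⟨x, y, z, rfl, _⟩ := h
    simp at h1

/-- elimination of the arithmetic -/
theorem ED.defs {P : Pd} (h : ED P) :
    ∃ φ, Defs φ {N | 0 < N ∧ ∃ E, P N E (fun _ => 0)} := by
  obtain ⟨φ, h⟩ := h
  obtain ⟨α, hα⟩ := GD.ax
  refine ⟨.and α φ.cl, fun N => ?_⟩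
  change (0 < N ∧ _) ↔ _
  refine and_congr_right fun hN => ?_
  have hv : ∀ x : ℕ, (fun _ : ℕ => 0) x < N := fun _ => hN
  constructor
  · rintro ⟨E, hE⟩
    obtain ⟨I, hI⟩ := (h N E _ hv).1 hE
    refine ⟨J E I, ?_⟩
    rw [sat_and]
    refine ⟨(hα _ _ _).1 J_ax, ?_⟩
    rw [sat_cl, J_Icl]
    exact hI
  · rintro ⟨I, hI⟩
    rw [sat_and, sat_cl] at hI
    obtain ⟨r, r1, r2, r3, r4, r5, r6, r7⟩ := Ax.exists_rank hN ((hα N I (fun _ => 0)).2 hI.1)
    refine ⟨fun i l => ∃ l' : List ℕ, (∀ a ∈ l', a < N) ∧ l'.map r = l ∧ I (3 + 2 * i) l',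
      (h N _ _ hv).2 ⟨fun i l => ∃ l' : List ℕ, (∀ a ∈ l', a < N) ∧ l'.map r = l ∧
        I (4 + 2 * i) l', ?_⟩⟩
    have h1 := (sat_transfer (D := (· < N)) (D' := (· < N)) (I := Icl I)
      (I' := J (fun i l => ∃ l' : List ℕ, (∀ a ∈ l', a < N) ∧ l'.map r = l ∧ I (3 + 2 * i) l')
        (fun i l => ∃ l' : List ℕ, (∀ a ∈ l', a < N) ∧ l'.map r = l ∧ I (4 + 2 * i) l'))
      r r1 r2 r3 ?_ (v := fun _ => 0) hv).1 hI.2
    · have h2 : r ∘ (fun _ : ℕ => 0) = fun _ => 0 := by funext x; simp [r4]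
      rwa [h2] at h1
    · intro i l hl
      have hmap : ∀ l' : List ℕ, (∀ a ∈ l', a < N) → l'.map r = l.map r → l' = l := by
        clear hI
        induction l with
        | nil => intro l' _ h2; simpa using h2
        | cons a l ih =>
          intro l' h2 h3
          cases l' with
          | nil => simp at h3
          | cons b l' =>
            simp only [List.map_cons, List.cons.injEq] at h3
            rw [r3 b a (h2 b (by simp)) (hl a (by simp)) h3.1,
              ih (fun c hc => hl c (by simp [hc])) l' (fun c hc => h2 c (by simp [hc])) h3.2]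
      unfold Icl J
      by_cases i0 : i = 0
      · subst i0
        simp only [if_true]
        constructor
        · rintro ⟨h2, h3⟩
          have h4 : l.length = 2 := by
            by_contra h5
            exact h2 (by simp [h5])
          obtain ⟨a, b, rfl⟩ := List.length_eq_two.1 h4
          exact ⟨r a, r b, by simp, (r5 a b (hl a (by simp)) (hl b (by simp))).1 h3⟩
        · rintro ⟨x, y, h2, h3⟩
          have h4 : l.length = 2 := by simpa using congrArg List.length h2
          obtain ⟨a, b, rfl⟩ := List.length_eq_two.1 h4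
          simp only [List.map_cons, List.map_nil, List.cons.injEq, and_true] at h2
          refine ⟨by simp, (r5 a b (hl a (by simp)) (hl b (by simp))).2 (by omega)⟩
      rw [if_neg i0]
      by_cases i1 : i = 1
      · subst i1
        simp only [if_true]
        constructor
        · rintro ⟨h2, h3⟩
          have h4 : l.length = 3 := by
            by_contra h5
            exact h2 (by simp [h5])
          obtain ⟨a, b, c, rfl⟩ := List.length_eq_three.1 h4
          exact ⟨r a, r b, r c, by simp,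
            (r6 a b c (hl a (by simp)) (hl b (by simp)) (hl c (by simp))).1 h3⟩
        · rintro ⟨x, y, z, h2, h3⟩
          have h4 : l.length = 3 := by simpa using congrArg List.length h2
          obtain ⟨a, b, c, rfl⟩ := List.length_eq_three.1 h4
          simp only [List.map_cons, List.map_nil, List.cons.injEq, and_true] at h2
          refine ⟨by simp, (r6 a b c (hl a (by simp)) (hl b (by simp)) (hl c (by simp))).2
            (by omega)⟩
      rw [if_neg i1]
      by_cases i2 : i = 2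
      · subst i2
        simp only [if_true]
        constructor
        · rintro ⟨h2, h3⟩
          have h4 : l.length = 3 := by
            by_contra h5
            exact h2 (by simp [h5])
          obtain ⟨a, b, c, rfl⟩ := List.length_eq_three.1 h4
          exact ⟨r a, r b, r c, by simp,
            (r7 a b c (hl a (by simp)) (hl b (by simp)) (hl c (by simp))).1 h3⟩
        · rintro ⟨x, y, z, h2, h3⟩
          have h4 : l.length = 3 := by simpa using congrArg List.length h2
          obtain ⟨a, b, c, rfl⟩ := List.length_eq_three.1 h4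
          simp only [List.map_cons, List.map_nil, List.cons.injEq, and_true] at h2
          obtain ⟨h5, h6, h7⟩ := h2
          refine ⟨by simp, (r7 a b c (hl a (by simp)) (hl b (by simp)) (hl c (by simp))).2
            (by rw [h5, h6, h7]; exact h3)⟩
      rw [if_neg i2]
      have hcl : ¬ ((i = 0 ∧ l.length ≠ 2) ∨ ((i = 1 ∨ i = 2) ∧ l.length ≠ 3)) := by tauto
      by_cases i3 : i % 2 = 1
      · rw [if_pos i3]
        beta_reduce
        rw [show 3 + 2 * ((i - 3) / 2) = i by omega]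
        constructor
        · rintro ⟨_, h3⟩
          exact ⟨l, hl, rfl, h3⟩
        · rintro ⟨l', h2, h3, h4⟩
          rw [hmap l' h2 h3] at h4
          exact ⟨hcl, h4⟩
      · rw [if_neg i3]
        beta_reduce
        rw [show 4 + 2 * ((i - 4) / 2) = i by omega]
        constructor
        · rintro ⟨_, h3⟩
          exact ⟨l, hl, rfl, h3⟩
        · rintro ⟨l', h2, h3, h4⟩
          rw [hmap l' h2 h3] at h4
          exact ⟨hcl, h4⟩

end Pool.Agent.H69.Sp
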