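import Pool.Agent.H69.Sp.Model

/-!
# Formulas with named variables
-/

set_option autoImplicit false

namespace Pool.Agent.H69.Sp

/-- formulas with named variables; the relation symbols are indexed by numbers -/
inductive Fm : Type
  | rel (i : ℕ) (xs : List ℕ) : Fm
  | eq (x y : ℕ) : Fm
  | neg (φ : Fm) : Fm
  | and (φ ψ : Fm) : Fm
  | all (x : ℕ) (φ : Fm) : Fm

/-- satisfaction in the universe `D` -/
def Sat {M : Type} (D : M → Prop) (I : ℕ → List M → Prop) : Fm → (ℕ → M) → Prop
  | .rel i xs, v => I i (xs.map v)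
  | .eq x y, v => v x = v y
  | .neg φ, v => ¬ Sat D I φ v
  | .and φ ψ, v => Sat D I φ v ∧ Sat D I ψ v
  | .all x φ, v => ∀ a, D a → Sat D I φ (Function.update v x a)

section
variable {M : Type} {D : M → Prop} {I : ℕ → List M → Prop} {v : ℕ → M}

theorem sat_rel {i : ℕ} {xs : List ℕ} : Sat D I (.rel i xs) v ↔ I i (xs.map v) := Iff.rfl

theorem sat_eq {x y : ℕ} : Sat D I (.eq x y) v ↔ v x = v y := Iff.rfl

theorem sat_neg {φ : Fm} : Sat D I (.neg φ) v ↔ ¬ Sat D I φ v := Iff.rfl

theorem sat_and {φ ψ : Fm} : Sat D I (.and φ ψ) v ↔ Sat D I φ v ∧ Sat D I ψ v := Iff.rfl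

theorem sat_all {x : ℕ} {φ : Fm} :
    Sat D I (.all x φ) v ↔ ∀ a, D a → Sat D I φ (Function.update v x a) := Iff.rfl

end

/-- a bound for the variables -/
def Fm.bd : Fm → ℕ
  | .rel _ xs => xs.foldr max 0 + 1
  | .eq x y => max x y + 1
  | .neg φ => φ.bd
  | .and φ ψ => max φ.bd ψ.bd
  | .all x φ => max (x + 1) φ.bd

theorem le_foldr_max {xs : List ℕ} {x : ℕ} (h : x ∈ xs) : x ≤ xs.foldr max 0 := by
  induction xs with
  | nil => simp at h
  | cons y xs ih =>
    rw [List.foldr_cons]
    rcases List.mem_cons.1 h with rfl | h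
    · exact le_max_left _ _
    · exact le_trans (ih h) (le_max_right _ _)

theorem sat_congr {M : Type} {D : M → Prop} {I : ℕ → List M → Prop} {φ : Fm} {v w : ℕ → M}
    (h : ∀ x < φ.bd, v x = w x) : Sat D I φ v ↔ Sat D I φ w := by
  induction φ generalizing v w with
  | rel i xs =>
    unfold Sat
    have : xs.map v = xs.map w := by
      refine List.map_congr_left fun x hx => h x ?_
      unfold Fm.bd
      have := le_foldr_max hx
      omega
    rw [this]
  | eq x y =>
    unfold Sat
    unfold Fm.bd at h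
    rw [h x (by omega), h y (by omega)]
  | neg φ ih => exact not_congr (ih h)
  | and φ ψ ih1 ih2 =>
    unfold Fm.bd at h
    exact and_congr (ih1 fun x hx => h x (by omega)) (ih2 fun x hx => h x (by omega))
  | all x φ ih =>
    unfold Fm.bd at h
    unfold Sat
    refine forall₂_congr fun a _ => ih fun y hy => ?_
    by_cases hxy : y = x
    · subst hxy; simp
    · rw [Function.update_of_ne hxy, Function.update_of_ne hxy]
      exact h y (by omega)

/-- transport along a bijection of the universes -/
theorem sat_transfer {M M' : Type} {D : M → Prop} {D' : M' → Prop} {I : ℕ → List M → Prop}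
    {I' : ℕ → List M' → Prop} (f : M → M') (h1 : ∀ a, D a → D' (f a))
    (h2 : ∀ b, D' b → ∃ a, D a ∧ f a = b) (h3 : ∀ a b, D a → D b → f a = f b → a = b)
    (h4 : ∀ i l, (∀ a ∈ l, D a) → (I i l ↔ I' i (l.map f))) {φ : Fm} {v : ℕ → M}
    (hv : ∀ x, D (v x)) : Sat D I φ v ↔ Sat D' I' φ (f ∘ v) := by
  induction φ generalizing v with
  | rel i xs =>
    unfold Sat
    rw [h4 i (xs.map v) (by
      intro a ha
      obtain ⟨x, _, rfl⟩ := List.mem_map.1 ha
      exact hv x), List.map_map]
  | eq x y =>
    unfold Sat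
    exact ⟨fun h => congrArg f h, fun h => h3 _ _ (hv x) (hv y) h⟩
  | neg φ ih => exact not_congr (ih hv)
  | and φ ψ ih1 ih2 => exact and_congr (ih1 hv) (ih2 hv)
  | all x φ ih =>
    unfold Sat
    have hup : ∀ a, f ∘ Function.update v x a = Function.update (f ∘ v) x (f a) := by
      intro a
      funext y
      by_cases hy : y = x
      · subst hy; simp
      · simp [Function.update_of_ne hy]
    constructor
    · intro h b hb
      obtain ⟨a, ha, rfl⟩ := h2 b hb
      rw [← hup]
      refine (ih ?_).1 (h a ha)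
      intro y
      by_cases hy : y = x
      · subst hy; simpa using ha
      · rw [Function.update_of_ne hy]; exact hv y
    · intro h a ha
      have := h (f a) (h1 a ha)
      rw [← hup] at this
      refine (ih ?_).2 this
      intro y
      by_cases hy : y = x
      · subst hy; simpa using ha
      · rw [Function.update_of_ne hy]; exact hv y

/-- shift the names of the variables -/
def Fm.sh (k : ℕ) : Fm → Fm
  | .rel i xs => .rel i (xs.map (· + k))
  | .eq x y => .eq (x + k) (y + k)
  | .neg φ => .neg (φ.sh k)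
  | .and φ ψ => .and (φ.sh k) (ψ.sh k)
  | .all x φ => .all (x + k) (φ.sh k)

theorem sat_sh {M : Type} {D : M → Prop} {I : ℕ → List M → Prop} {φ : Fm} {k : ℕ} {v : ℕ → M} :
    Sat D I (φ.sh k) v ↔ Sat D I φ (fun x => v (x + k)) := by
  induction φ generalizing v with
  | rel i xs =>
    unfold Fm.sh Sat
    rw [List.map_map]
    rfl
  | eq x y => exact Iff.rfl
  | neg φ ih => exact not_congr ih
  | and φ ψ ih1 ih2 => exact and_congr ih1 ih2
  | all x φ ih =>
    unfold Fm.sh Sat
    refine forall₂_congr fun a _ => ?_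
    rw [ih]
    have : (fun y => Function.update v (x + k) a (y + k)) =
        Function.update (fun y => v (y + k)) x a := by
      funext y
      by_cases hy : y = x
      · subst hy; simp
      · rw [Function.update_of_ne hy, Function.update_of_ne (by omega)]
    rw [this]

/-- `φ` has no free variables (in the semantic sense) -/
def Closed (φ : Fm) : Prop :=
  ∀ (M : Type) (D : M → Prop) (I : ℕ → List M → Prop) (v w : ℕ → M), Sat D I φ v ↔ Sat D I φ w

/-- `S` is defined by the formula `φ` -/
def Defs (φ : Fm) (S : Set ℕ) : Prop :=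
  ∀ n, n ∈ S ↔ 0 < n ∧ ∃ I : ℕ → List ℕ → Prop, Sat (· < n) I φ (fun _ => 0)

end Pool.Agent.H69.Sp
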