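import Pool.Agent.H69.Sp.Per

/-!
# Complements of spectra: a pumping criterion
-/

set_option autoImplicit false

namespace Pool.Agent.Results.MP_64fb07_lc.PumpingSpectra

open FirstOrder FirstOrder.Language Pool.Agent.H69.Sp

theorem result (L : FirstOrder.Language.{0, 0}) [L.IsRelational] [Finite (Σ n, L.Relations n)]
    (φ : L.Sentence) (N : ℕ)
    (h : ∀ (A : Type) [L.Structure A] [Finite A], N ≤ Nat.card A → A ⊨ φ →
      ∃ (B C : Type) (_ : L.Structure B) (_ : L.Structure C), Finite B ∧ Finite C ∧ Nonempty C ∧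
        IsSum L A B C ∧ {k : ℕ | CopiesModel L φ B C k}.Infinite) :
    (∃ m p, 0 < p ∧ ∀ n ≥ m, (n ∈ spec L φ ↔ n + p ∈ spec L φ)) ∧
      IsSpectrum (posCompl (spec L φ)) := by
  have h1 : UltPer (spec L φ) := pump_ultPer φ N h
  refine ⟨h1, ?_⟩
  have h2 : UltPer {n | n ∉ spec L φ} := by
    obtain ⟨m, p, hp, h3⟩ := h1
    exact ⟨m, p, hp, fun n hn => not_congr (h3 n hn)⟩
  exact h2.isSpectrum

end Pool.Agent.Results.MP_64fb07_lc.PumpingSpectra
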