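import Pool.Agent.H69.Sp.Model

/-!
# Types of bounded quantifier rank
-/

set_option autoImplicit false

namespace Pool.Agent.H69.Sp

open FirstOrder FirstOrder.Language FirstOrder.Language.Structure

variable (L : FirstOrder.Language.{0, 0}) [L.IsRelational]

/-- atomic facts about `m`-tuples -/
abbrev Atom (m : ℕ) : Type := (Fin m × Fin m) ⊕ (Σ R : (Σ n, L.Relations n), Fin R.1 → Fin m)

/-- types of rank `r` of `m`-tuples -/
def Ty : ℕ → ℕ → Type
  | 0, m => Set (Atom L m)
  | r + 1, m => Set (Atom L m) × Set (Ty r (m + 1))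

instance finite_Ty [Finite (Σ n, L.Relations n)] (r m : ℕ) : Finite (Ty L r m) := by
  induction r generalizing m with
  | zero => unfold Ty; infer_instance
  | succ r ih =>
    unfold Ty
    have := ih (m + 1)
    infer_instance

variable {L}

/-- the atomic facts which are true -/
def atp {M : Type} [L.Structure M] {m : ℕ} (v : Fin m → M) : Set (Atom L m) :=
  {x | x.elim (fun p => v p.1 = v p.2) (fun R => RelMap R.1.2 (v ∘ R.2))}

theorem atp_eq_iff {M N : Type} [L.Structure M] [L.Structure N] {m : ℕ} {v : Fin m → M}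
    {w : Fin m → N} : (atp v : Set (Atom L m)) = atp w ↔
      (∀ i j, v i = v j ↔ w i = w j) ∧
      ∀ (n : ℕ) (R : L.Relations n) (f : Fin n → Fin m), RelMap R (v ∘ f) ↔ RelMap R (w ∘ f) := by
  constructor
  · intro h
    constructor
    · intro i j
      have := Set.ext_iff.1 h (Sum.inl (i, j))
      exact this
    · intro n R f
      have := Set.ext_iff.1 h (Sum.inr ⟨⟨n, R⟩, f⟩)
      exact this
  · rintro ⟨h1, h2⟩
    ext x
    rcases x with ⟨i, j⟩ | ⟨⟨n, R⟩, f⟩
    · exact h1 i j
    · exact h2 n R f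

/-- the type of rank `r` of a tuple -/
def tp {M : Type} [L.Structure M] : (r : ℕ) → {m : ℕ} → (Fin m → M) → Ty L r m
  | 0, _, v => atp v
  | r + 1, _, v => (atp v, Set.range fun a : M => tp r (Fin.snoc v a : Fin (_ + 1) → M))

theorem tp_succ_iff {M N : Type} [L.Structure M] [L.Structure N] {r m : ℕ} {v : Fin m → M}
    {w : Fin m → N} : (tp (r + 1) v : Ty L (r + 1) m) = tp (r + 1) w ↔
      (atp v : Set (Atom L m)) = atp w ∧
      (∀ a : M, ∃ b : N, (tp r (Fin.snoc v a : Fin (m + 1) → M) : Ty L r (m + 1)) =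
        tp r (Fin.snoc w b : Fin (m + 1) → N)) ∧
      (∀ b : N, ∃ a : M, (tp r (Fin.snoc v a : Fin (m + 1) → M) : Ty L r (m + 1)) =
        tp r (Fin.snoc w b : Fin (m + 1) → N)) := by
  have h0 : ((tp (r + 1) v : Ty L (r + 1) m) = tp (r + 1) w) ↔
      (((atp v, Set.range fun a : M => tp r (Fin.snoc v a : Fin (m + 1) → M)) :
        Set (Atom L m) × Set (Ty L r (m + 1))) =
      (atp w, Set.range fun a : N => tp r (Fin.snoc w a : Fin (m + 1) → N))) := Iff.rfl
  rw [h0, Prod.mk.injEq]
  refine and_congr Iff.rfl ?_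
  constructor
  · intro h
    constructor
    · intro a
      have : (tp r (Fin.snoc v a : Fin (m + 1) → M) : Ty L r (m + 1)) ∈
          Set.range fun b : N => (tp r (Fin.snoc w b : Fin (m + 1) → N) : Ty L r (m + 1)) := by
        rw [← h]; exact ⟨a, rfl⟩
      obtain ⟨b, hb⟩ := this
      exact ⟨b, hb.symm⟩
    · intro b
      have : (tp r (Fin.snoc w b : Fin (m + 1) → N) : Ty L r (m + 1)) ∈
          Set.range fun a : M => (tp r (Fin.snoc v a : Fin (m + 1) → M) : Ty L r (m + 1)) := by
        rw [h]; exact ⟨b, rfl⟩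
      obtain ⟨a, ha⟩ := this
      exact ⟨a, ha⟩
  · rintro ⟨h1, h2⟩
    ext t
    constructor
    · rintro ⟨a, rfl⟩
      obtain ⟨b, hb⟩ := h1 a
      exact ⟨b, hb.symm⟩
    · rintro ⟨b, rfl⟩
      obtain ⟨a, ha⟩ := h2 b
      exact ⟨a, ha⟩

theorem tp_atp {M N : Type} [L.Structure M] [L.Structure N] {r m : ℕ} {v : Fin m → M}
    {w : Fin m → N} (h : (tp r v : Ty L r m) = tp r w) : (atp v : Set (Atom L m)) = atp w := by
  cases r with
  | zero => exact h
  | succ r => exact (tp_succ_iff.1 h).1

/-- a relational term is a variable -/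
theorem term_var {m : ℕ} (t : L.Term (Empty ⊕ Fin m)) : ∃ i, t = Term.var (Sum.inr i) := by
  cases t with
  | var x =>
    rcases x with x | i
    · exact x.elim
    · exact ⟨i, rfl⟩
  | func f _ => exact isEmptyElim f

/-- sentences are invariant under equality of types of large rank -/
theorem exists_rank {m : ℕ} (φ : L.BoundedFormula Empty m) : ∃ r₀, ∀ r ≥ r₀,
    ∀ (M N : Type) [L.Structure M] [L.Structure N] (v : Fin m → M) (w : Fin m → N),
      (tp r v : Ty L r m) = tp r w → (φ.Realize default v ↔ φ.Realize default w) := by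
  induction φ with
  | falsum => exact ⟨0, fun r _ M N _ _ v w _ => Iff.rfl⟩
  | equal t₁ t₂ =>
    refine ⟨0, fun r _ M N _ _ v w h => ?_⟩
    obtain ⟨i, rfl⟩ := term_var t₁
    obtain ⟨j, rfl⟩ := term_var t₂
    exact (atp_eq_iff.1 (tp_atp h)).1 i j
  | rel R ts =>
    refine ⟨0, fun r _ M N _ _ v w h => ?_⟩
    choose f hf using fun j => term_var (ts j)
    have e : ts = fun j => Term.var (Sum.inr (f j)) := funext hf
    subst e
    exact (atp_eq_iff.1 (tp_atp h)).2 _ R f
  | imp φ ψ ih1 ih2 =>
    obtain ⟨r1, h1⟩ := ih1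
    obtain ⟨r2, h2⟩ := ih2
    refine ⟨max r1 r2, fun r hr M N _ _ v w h => ?_⟩
    rw [BoundedFormula.realize_imp, BoundedFormula.realize_imp,
      h1 r (le_trans (le_max_left _ _) hr) M N v w h,
      h2 r (le_trans (le_max_right _ _) hr) M N v w h]
  | all φ ih =>
    obtain ⟨r1, h1⟩ := ih
    refine ⟨r1 + 1, fun r hr M N _ _ v w h => ?_⟩
    obtain ⟨s, rfl⟩ : ∃ s, r = s + 1 := ⟨r - 1, by omega⟩
    obtain ⟨_, h2, h3⟩ := tp_succ_iff.1 h
    rw [BoundedFormula.realize_all, BoundedFormula.realize_all]
    constructor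
    · intro h4 b
      obtain ⟨a, ha⟩ := h3 b
      exact (h1 s (by omega) M N _ _ ha).1 (h4 a)
    · intro h4 a
      obtain ⟨b, hb⟩ := h2 a
      exact (h1 s (by omega) M N _ _ hb).2 (h4 b)

/-- invariance under isomorphisms -/
theorem tp_equiv {M N : Type} [L.Structure M] [L.Structure N] (e : M ≃ N)
    (he : ∀ {n : ℕ} (R : L.Relations n) (x : Fin n → M), RelMap R (e ∘ x) ↔ RelMap R x)
    (r : ℕ) {m : ℕ} (v : Fin m → M) : (tp r v : Ty L r m) = tp r (e ∘ v) := by
  have hat : ∀ {m : ℕ} (v : Fin m → M), (atp v : Set (Atom L m)) = atp (e ∘ v) := by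
    intro m v
    rw [atp_eq_iff]
    refine ⟨fun i j => by simp, fun n R f => ?_⟩
    rw [Function.comp_assoc, he]
  induction r generalizing m with
  | zero => exact hat v
  | succ r ih =>
    rw [tp_succ_iff]
    have hs : ∀ a, (Fin.snoc (e ∘ v) (e a) : Fin (m + 1) → N) = e ∘ Fin.snoc v a := by
      intro a
      funext i
      refine Fin.lastCases ?_ (fun i => ?_) i <;> simp
    refine ⟨hat v, fun a => ⟨e a, ?_⟩, fun b => ⟨e.symm b, ?_⟩⟩
    · rw [hs]; exact ih _
    · have := hs (e.symm b)
      rw [Equiv.apply_symm_apply] at this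
      rw [this]
      exact ih _

/-! ### Disjoint unions -/

attribute [local instance] sumStr copStr

theorem sum_relMap {A B : Type} [L.Structure A] [L.Structure B] {n : ℕ} (R : L.Relations n)
    (x : Fin n → A ⊕ B) : RelMap R x ↔ (∃ a, x = Sum.inl ∘ a ∧ RelMap R a) ∨
    (∃ b, x = Sum.inr ∘ b ∧ RelMap R b) := Iff.rfl

theorem cop_relMap {I A : Type} [L.Structure A] {n : ℕ} (R : L.Relations n)
    (x : Fin n → I × A) : RelMap R x ↔ ∃ i a, x = (fun j => (i, a j)) ∧ RelMap R a := Iff.rfl

/-- the tuple of a disjoint union given by two tuples and a pattern -/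
def mix {A B : Type} {p q m : ℕ} (ρ : Fin m → Fin p ⊕ Fin q) (v : Fin p → A) (w : Fin q → B) :
    Fin m → A ⊕ B := Sum.map v w ∘ ρ

theorem atp_mix {A A' B B' : Type} [L.Structure A] [L.Structure A'] [L.Structure B]
    [L.Structure B'] {p q m : ℕ} (ρ : Fin m → Fin p ⊕ Fin q) {v : Fin p → A} {v' : Fin p → A'}
    {w : Fin q → B} {w' : Fin q → B'} (h1 : (atp v : Set (Atom L p)) = atp v')
    (h2 : (atp w : Set (Atom L q)) = atp w') :
    (atp (mix ρ v w) : Set (Atom L m)) = atp (mix ρ v' w') := by
  rw [atp_eq_iff] at h1 h2 ⊢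
  constructor
  · intro i j
    unfold mix
    simp only [Function.comp_apply]
    rcases ρ i with a | a <;> rcases ρ j with b | b
    · simpa using h1.1 a b
    · simp
    · simp
    · simpa using h2.1 a b
  · have key : ∀ {A A' B B' : Type} [L.Structure A] [L.Structure A'] [L.Structure B]
        [L.Structure B'] {v : Fin p → A} {v' : Fin p → A'}
        {w : Fin q → B} {w' : Fin q → B'},
        (∀ (n : ℕ) (R : L.Relations n) (f : Fin n → Fin p),
          RelMap R (v ∘ f) ↔ RelMap R (v' ∘ f)) →
        (∀ (n : ℕ) (R : L.Relations n) (f : Fin n → Fin q),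
          RelMap R (w ∘ f) ↔ RelMap R (w' ∘ f)) →
        ∀ (n : ℕ) (R : L.Relations n) (f : Fin n → Fin m), RelMap R (mix ρ v w ∘ f) →
          RelMap R (mix ρ v' w' ∘ f) := by
      intro A A' B B' _ _ _ _ v v' w w' h1 h2 n R f h
      rw [sum_relMap] at h ⊢
      rcases h with ⟨a, ha, hR⟩ | ⟨b, hb, hR⟩
      · left
        have hl : ∀ j, ∃ c, ρ (f j) = Sum.inl c := by
          intro j
          have := congrFun ha j
          unfold mix at this
          simp only [Function.comp_apply] at this
          rcases hρ : ρ (f j) with c | c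
          · exact ⟨c, rfl⟩
          · rw [hρ] at this; simp at this
        choose c hc using hl
        refine ⟨v' ∘ c, ?_, ?_⟩
        · funext j
          unfold mix
          simp [hc]
        · rw [← h1]
          have : v ∘ c = a := by
            funext j
            have := congrFun ha j
            unfold mix at this
            simp only [Function.comp_apply, hc, Sum.map_inl, Sum.inl.injEq] at this
            exact this
          rw [this]
          exact hR
      · right
        have hl : ∀ j, ∃ c, ρ (f j) = Sum.inr c := by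
          intro j
          have := congrFun hb j
          unfold mix at this
          simp only [Function.comp_apply] at this
          rcases hρ : ρ (f j) with c | c
          · rw [hρ] at this; simp at this
          · exact ⟨c, rfl⟩
        choose c hc using hl
        refine ⟨w' ∘ c, ?_, ?_⟩
        · funext j
          unfold mix
          simp [hc]
        · rw [← h2]
          have : w ∘ c = b := by
            funext j
            have := congrFun hb j
            unfold mix at this
            simp only [Function.comp_apply, hc, Sum.map_inr, Sum.inr.injEq] at this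
            exact this
          rw [this]
          exact hR
    intro n R f
    exact ⟨key h1.2 h2.2 n R f, key (fun n R f => (h1.2 n R f).symm)
      (fun n R f => (h2.2 n R f).symm) n R f⟩

/-- pattern with a new element on the left -/
def extL {p q m : ℕ} (ρ : Fin m → Fin p ⊕ Fin q) : Fin (m + 1) → Fin (p + 1) ⊕ Fin q :=
  Fin.snoc (Sum.map Fin.castSucc id ∘ ρ) (Sum.inl (Fin.last p))

/-- pattern with a new element on the right -/
def extR {p q m : ℕ} (ρ : Fin m → Fin p ⊕ Fin q) : Fin (m + 1) → Fin p ⊕ Fin (q + 1) :=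
  Fin.snoc (Sum.map id Fin.castSucc ∘ ρ) (Sum.inr (Fin.last q))

theorem mix_extL {A B : Type} {p q m : ℕ} (ρ : Fin m → Fin p ⊕ Fin q) (v : Fin p → A)
    (w : Fin q → B) (a : A) :
    (Fin.snoc (mix ρ v w) (Sum.inl a) : Fin (m + 1) → A ⊕ B) = mix (extL ρ) (Fin.snoc v a) w := by
  funext i
  refine Fin.lastCases ?_ (fun i => ?_) i
  · simp [mix, extL]
  · simp only [Fin.snoc_castSucc, mix, extL, Function.comp_apply]
    rcases ρ i with c | c <;> simp

theorem mix_extR {A B : Type} {p q m : ℕ} (ρ : Fin m → Fin p ⊕ Fin q) (v : Fin p → A)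
    (w : Fin q → B) (b : B) :
    (Fin.snoc (mix ρ v w) (Sum.inr b) : Fin (m + 1) → A ⊕ B) = mix (extR ρ) v (Fin.snoc w b) := by
  funext i
  refine Fin.lastCases ?_ (fun i => ?_) i
  · simp [mix, extR]
  · simp only [Fin.snoc_castSucc, mix, extR, Function.comp_apply]
    rcases ρ i with c | c <;> simp

/-- the type of a disjoint union is determined by the types of the parts -/
theorem tp_mix {A A' B B' : Type} [L.Structure A] [L.Structure A'] [L.Structure B]
    [L.Structure B'] (r : ℕ) {p q m : ℕ} (ρ : Fin m → Fin p ⊕ Fin q) {v : Fin p → A}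
    {v' : Fin p → A'} {w : Fin q → B} {w' : Fin q → B'}
    (h1 : (tp r v : Ty L r p) = tp r v') (h2 : (tp r w : Ty L r q) = tp r w') :
    (tp r (mix ρ v w) : Ty L r m) = tp r (mix ρ v' w') := by
  induction r generalizing p q m with
  | zero => exact atp_mix ρ h1 h2
  | succ r ih =>
    have h1' := h1
    have h2' := h2
    rw [tp_succ_iff] at h1 h2
    have hlow : ∀ {M N : Type} [L.Structure M] [L.Structure N] {k : ℕ} {r : ℕ} {v : Fin k → M}
        {w : Fin k → N}, (tp (r + 1) v : Ty L (r + 1) k) = tp (r + 1) w →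
        (tp r v : Ty L r k) = tp r w := by
      intro M N _ _ k r v w h
      induction r generalizing k with
      | zero => exact (tp_succ_iff.1 h).1
      | succ r ih =>
        rw [tp_succ_iff] at h ⊢
        refine ⟨h.1, fun a => ?_, fun b => ?_⟩
        · obtain ⟨b, hb⟩ := h.2.1 a
          exact ⟨b, ih hb⟩
        · obtain ⟨a, ha⟩ := h.2.2 b
          exact ⟨a, ih ha⟩
    rw [tp_succ_iff]
    refine ⟨atp_mix ρ h1.1 h2.1, fun x => ?_, fun y => ?_⟩
    · rcases x with a | b
      · obtain ⟨a', ha⟩ := h1.2.1 a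
        refine ⟨Sum.inl a', ?_⟩
        rw [mix_extL, mix_extL]
        exact ih _ ha (hlow h2')
      · obtain ⟨b', hb⟩ := h2.2.1 b
        refine ⟨Sum.inr b', ?_⟩
        rw [mix_extR, mix_extR]
        exact ih _ (hlow h1') hb
    · rcases y with a | b
      · obtain ⟨a', ha⟩ := h1.2.2 a
        refine ⟨Sum.inl a', ?_⟩
        rw [mix_extL, mix_extL]
        exact ih _ ha (hlow h2')
      · obtain ⟨b', hb⟩ := h2.2.2 b
        refine ⟨Sum.inr b', ?_⟩
        rw [mix_extR, mix_extR]
        exact ih _ (hlow h1') hb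

end Pool.Agent.H69.Sp
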